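import Pool.Agent.Helper91.BX.E

/-!
Row M5 (MP_c75db0, star frame), part 8: boxes over an affine base `W_S = s0 + s1 κ_q² + s2 κ_r²`
(or `W_A`), pieces over different bases, start of the window at the threshold, end at a line.
-/

set_option autoImplicit false
set_option exponentiation.threshold 4000
noncomputable section
namespace Pool.Agent.Helper91.BX

open Pool.Agent.Helper90.C75 (Vt avg wtT bt avg_const avg_T_succ Wts Mod)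
open Pool.Agent.Helper90.KMT
open Pool.Agent.Helper90.KMO (UU UU_pos cz zv zv_p andB_t)
open Pool.Agent.Helper86.C75 (Z)
open Pool.Agent.Helper86.CX (Cx andB)
open Pool.Agent.Helper86.CT (N3 DF Alg Mo mk cst addM subM mulM invM invOK conjM A0 A1 A2 A3 A4)
open Pool.Agent.Helper6.MONO (Kp xA xA_eq xA_gt kap_mono fB fBx fB_eq)
open Pool.Agent.Helper6.MONO.W2 (phi ep Win cW)
open Pool.Agent.Helper62.TVM (cstC TOK_cstC tc)

/-! ### kernel side -/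

/-- THE BASE OF THE EXCESS: `f = false`: `W_A`; `f = true`: `(s0 + s1 κ_q² + s2 κ_r²) / 2 ^ 48` -/
structure Sb where
  f : Bool
  s0 : Z
  s1 : Z
  s2 : Z

/-- a signed constant -/
def zM {α : Type} (A : Alg α) (z : Z) : Mo α := cstC A ⟨z, Z.p (nat_lit 0)⟩ (nat_lit 0)

/-- the model of the base; `b = a + m`, `f = 4 - a`, `m = f s` -/
def bsM {α : Type} (A : Alg α) (p : ℕ) (S : Sb) (a b f m : Mo α) : Mo α :=
  Bool.rec (motive := fun _ => Mo α)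
    (addM A a (mulM A (cst A (tA p) (nat_lit 150)) (addM A f m)))
    (addM A (addM A (zM A S.s0) (mulM A (zM A S.s1) a)) (mulM A (zM A S.s2) b)) S.f

def bxS4 {α : Type} (A : Alg α) (p : ℕ) (S : Sb) (w a f m b : Mo α) : BxM α :=
  ⟨cst A (tK p) (nat_lit 1), cst A (tI p) (nat_lit 2), cst A (tC p) (nat_lit 1),
    cst A (tS p) (nat_lit 4), cst A (tH p) (nat_lit 36), cstC A ⟨Z.p (tC p), Z.p (tS p)⟩ (nat_lit 5),
    a, b, addM A (bsM A p S a b f m) w⟩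
def bxS3 {α : Type} (A : Alg α) (p : ℕ) (S : Sb) (w a f m : Mo α) : BxM α :=
  bxS4 A p S w a f m (addM A a m)
def bxS2 {α : Type} (A : Alg α) (p : ℕ) (S : Sb) (w s a f : Mo α) : BxM α :=
  bxS3 A p S w a f (mulM A f s)
def bxS1 {α : Type} (A : Alg α) (p : ℕ) (S : Sb) (w s a : Mo α) : BxM α :=
  bxS2 A p S w s a (subM A (foM A) a)
/-- THE MODELS OF THE BOX `B` over the base `S` for the order `p` -/
def bxS {α : Type} (A : Alg α) (qd : ℕ → Cx → Cx → Cx → α) (p : ℕ) (S : Sb) (B : Bx) : BxM α :=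
  bxS1 A p S (afM A (qd (nat_lit 2)) B.W0 B.W1 (nat_lit 0))
    (afM A (qd (nat_lit 1)) B.S0 B.S1 B.rs) (afM A (qd (nat_lit 0)) B.A0 B.A1 B.ra)

/-! ### real side -/

/-- the value of a signed number -/
def zr (z : Z) : ℝ := ((zv z : ℤ) : ℝ)

/-- THE BASE -/
def WB (S : Sb) (p q r : ℕ) : ℝ := bif S.f then
  (zr S.s0 + zr S.s1 * Kp q ^ 2 + zr S.s2 * Kp r ^ 2) / 2 ^ 48 else WA p q r

theorem WB_false (s0 s1 s2 : Z) (p q r : ℕ) : WB ⟨false, s0, s1, s2⟩ p q r = WA p q r := rfl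

variable {α : Type} {D : ℕ} {lf : α → Vt D → ℂ} {A : Alg α} {t : ℕ → ℝ}
  {qd : ℕ → Cx → Cx → Cx → α}

theorem TOK_z (hA : AOK D lf A) (hP : PT D t) (z : Z) :
    TOK D lf t ((zr z / 2 ^ 48 : ℝ) : ℂ) (zM A z) := by
  refine TOK_cstC hA hP ?_
  have e : (UU : ℂ) * ((zr z / 2 ^ 48 : ℝ) : ℂ) - cz ⟨z, Z.p (nat_lit 0)⟩ = 0 := by
    rw [UU_eq]
    apply Complex.ext
    · rw [Complex.sub_re, Complex.re_ofReal_mul, Complex.ofReal_re]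
      show 2 ^ 48 * (zr z / 2 ^ 48) - ((zv z : ℤ) : ℝ) = 0
      rw [mul_div_cancel₀ _ (by positivity)]
      exact sub_self _
    · rw [Complex.sub_im, Complex.im_ofReal_mul, Complex.ofReal_im, mul_zero]
      show 0 - ((zv (Z.p (nat_lit 0)) : ℤ) : ℝ) = 0
      rw [zv_p]
      norm_num
  rw [e, norm_zero]
  exact Nat.cast_nonneg _

/-- THE BASE IN THE MACHINE -/
theorem WB_ok (hA : AOK D lf A) (hP : PT D t) {p q r : ℕ} (hp : 3 ≤ p) (hp15 : p ≤ 15)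
    (S : Sb) {a b f m : Mo α} (ta : TOK D lf t ((Kp q ^ 2 : ℝ) : ℂ) a)
    (tb : TOK D lf t ((Kp r ^ 2 : ℝ) : ℂ) b) (tf : TOK D lf t ((4 - Kp q ^ 2 : ℝ) : ℂ) f)
    (tm : TOK D lf t ((Kp r ^ 2 - Kp q ^ 2 : ℝ) : ℂ) m) :
    TOK D lf t ((WB S p q r : ℝ) : ℂ) (bsM A p S a b f m) := by
  obtain ⟨c, s0, s1, s2⟩ := S
  cases c with
  | false =>
    have tal : TOK D lf t ((1 / (4 - Kp p ^ 2) : ℝ) : ℂ) (cst A (tA p) (nat_lit 150)) :=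
      TOK_rc hA hP (tA_ok hp hp15)
    refine tc (ta.add hA (tal.mul hA hP (tf.add hA tm))) ?_
    have e2 : WB ⟨false, s0, s1, s2⟩ p q r = Kp q ^ 2 + 1 / (4 - Kp p ^ 2) *
        ((4 - Kp q ^ 2) + (Kp r ^ 2 - Kp q ^ 2)) := by
      rw [WB_false]
      unfold WA
      ring
    rw [e2]
    push_cast
    ring
  | true =>
    refine tc (((TOK_z hA hP s0).add hA ((TOK_z hA hP s1).mul hA hP ta)).add hA
      ((TOK_z hA hP s2).mul hA hP tb)) ?_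
    have e2 : WB ⟨true, s0, s1, s2⟩ p q r = zr s0 / 2 ^ 48 + zr s1 / 2 ^ 48 * Kp q ^ 2 +
        zr s2 / 2 ^ 48 * Kp r ^ 2 := by
      show (zr s0 + zr s1 * Kp q ^ 2 + zr s2 * Kp r ^ 2) / 2 ^ 48 = _
      ring
    rw [e2]
    push_cast
    ring

/-- THE PARAMETERS OF THE POINT, over the base `S` -/
structure ParS (p q r : ℕ) (S : Sb) (B : Bx) (x : ℝ) (t : ℕ → ℝ) : Prop where
  a : |2 ^ 48 * Kp q ^ 2 - ((1 - t 0) * B.A0 + t 0 * B.A1)| ≤ (B.ra : ℝ)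
  s : |2 ^ 48 * sr q r - ((1 - t 1) * B.S0 + t 1 * B.S1)| ≤ (B.rs : ℝ)
  w : |2 ^ 48 * (cW p q r x - WB S p q r) - ((1 - t 2) * B.W0 + t 2 * B.W1)| ≤ ((0 : ℕ) : ℝ)

theorem Par.s' {p q r : ℕ} {B : Bx} {x : ℝ} (h : Par p q r B x t) (s0 s1 s2 : Z) :
    ParS p q r ⟨false, s0, s1, s2⟩ B x t := ⟨h.a, h.s, h.w⟩

theorem bxS_ok (hA : AOK D lf A) (hP : PT D t) (hq : ∀ j < 3, CD D j lf (qd j)) (hD : 3 ≤ D)
    {p q r : ℕ} (hp : 3 ≤ p) (hp15 : p ≤ 15) (hq3 : 3 ≤ q) {S : Sb} {B : Bx} {x : ℝ}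
    (h : ParS p q r S B x t) : BxT D lf t p q r x (bxS A qd p S B) := by
  have ta : TOK D lf t ((Kp q ^ 2 : ℝ) : ℂ) (afM A (qd (nat_lit 0)) B.A0 B.A1 B.ra) :=
    TOK_af hA hP (hq 0 (by norm_num)) (by omega) h.a
  have ts : TOK D lf t ((sr q r : ℝ) : ℂ) (afM A (qd (nat_lit 1)) B.S0 B.S1 B.rs) :=
    TOK_af hA hP (hq 1 (by norm_num)) (by omega) h.s
  have tw : TOK D lf t ((cW p q r x - WB S p q r : ℝ) : ℂ)
      (afM A (qd (nat_lit 2)) B.W0 B.W1 (nat_lit 0)) :=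
    TOK_af hA hP (hq 2 (by norm_num)) (by omega) h.w
  obtain ⟨-, -, k4⟩ := Kp_b hq3
  have eb : (4 - Kp q ^ 2) * sr q r = Kp r ^ 2 - Kp q ^ 2 := by
    unfold sr
    rw [mul_div_cancel₀ _ k4.ne']
  have tf : TOK D lf t ((4 - Kp q ^ 2 : ℝ) : ℂ)
      (subM A (foM A) (afM A (qd (nat_lit 0)) B.A0 B.A1 B.ra)) :=
    tc ((TOK_four hA hP).sub hA ta) (by push_cast; rfl)
  have tm : TOK D lf t ((Kp r ^ 2 - Kp q ^ 2 : ℝ) : ℂ)
      (mulM A (subM A (foM A) (afM A (qd (nat_lit 0)) B.A0 B.A1 B.ra))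
        (afM A (qd (nat_lit 1)) B.S0 B.S1 B.rs)) :=
    tc (tf.mul hA hP ts) (by rw [← Complex.ofReal_mul, eb])
  have tb : TOK D lf t ((Kp r ^ 2 : ℝ) : ℂ) (addM A (afM A (qd (nat_lit 0)) B.A0 B.A1 B.ra)
      (mulM A (subM A (foM A) (afM A (qd (nat_lit 0)) B.A0 B.A1 B.ra))
        (afM A (qd (nat_lit 1)) B.S0 B.S1 B.rs))) :=
    tc (ta.add hA tm) (by rw [← Complex.ofReal_add]; congr 1; ring)
  refine ⟨TOK_rc hA hP (tK_ok hp hp15), TOK_rc hA hP (tI_ok hp hp15),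
    TOK_rc hA hP (tC_ok hp hp15), TOK_rc hA hP (tS_ok hp hp15), TOK_rc hA hP (tH_ok hp hp15),
    ?_, ta, tb, ?_⟩
  · refine TOK_cstC hA hP ?_
    have c1 := tC_ok hp hp15
    have s1 := tS_ok hp hp15
    have e1 : (UU : ℂ) * ep (phi p) - cz ⟨Z.p (tC p), Z.p (tS p)⟩ =
        ((2 ^ 48 * Real.cos (Real.pi / p) - tC p : ℝ) : ℂ) +
        ((2 ^ 48 * Real.sin (Real.pi / p) - tS p : ℝ) : ℂ) * Complex.I := by
      rw [cz_pp, ← UU_eq]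
      exact cpx_sub UU (Real.cos (Real.pi / p)) (Real.sin (Real.pi / p)) _ _
    rw [e1]
    refine (norm_add_le _ _).trans ?_
    rw [norm_mul, Complex.norm_I, mul_one, Complex.norm_real, Complex.norm_real,
      Real.norm_eq_abs, Real.norm_eq_abs]
    have := add_le_add c1 s1
    refine this.trans ?_
    norm_num
  · exact tc ((WB_ok hA hP hp hp15 S ta tb tf tm).add hA tw)
      (by rw [← Complex.ofReal_add]; congr 1; ring)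

/-- EXISTENCE OF THE PARAMETERS; the fourth one is free -/
theorem parS_ex {p q r : ℕ} {S : Sb} {B : Bx} {x : ℝ} (hD4 : D ≤ 4)
    (ha : Rg (Kp q ^ 2) B.A0 B.A1 B.ra) (hs : Rg (sr q r) B.S0 B.S1 B.rs)
    (hw : Rg (cW p q r x - WB S p q r) B.W0 B.W1 0) {u : ℝ}
    (h0 : 0 ≤ u) (h1 : u ≤ 1) : ∃ t : ℕ → ℝ, PT D t ∧ ParS p q r S B x t ∧ t 3 = u := by
  obtain ⟨s0, a0, a1, a2⟩ := ha.par
  obtain ⟨s1, b0, b1, b2⟩ := hs.par
  obtain ⟨s2, c0, c1, c2⟩ := hw.par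
  refine ⟨fun j => if j = 0 then s0 else if j = 1 then s1 else if j = 2 then s2 else u,
    ⟨fun j _ => ?_, fun j _ => ?_, hD4⟩, ⟨a2, b2, by simpa using c2⟩, rfl⟩
  · show 0 ≤ (if j = 0 then s0 else if j = 1 then s1 else if j = 2 then s2 else u)
    split_ifs <;> assumption
  · show (if j = 0 then s0 else if j = 1 then s1 else if j = 2 then s2 else u) ≤ 1
    split_ifs <;> assumption

theorem ParS.tu {p q r : ℕ} {S : Sb} {B : Bx} {x : ℝ} (h : ParS p q r S B x t) (hD : 3 ≤ D)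
    (u : ℝ) : ParS p q r S B x (tu D t u) := by
  obtain ⟨a, b, c⟩ := h
  refine ⟨?_, ?_, ?_⟩
  · rw [tu_lt (by omega)]
    exact a
  · rw [tu_lt (by omega)]
    exact b
  · rw [tu_lt (by omega)]
    exact c

/-! ### the point of a value of `W` -/

/-- the point with `W = V` -/
def xv (p q r : ℕ) (V : ℝ) : ℝ :=
  (V * (4 - Kp p ^ 2) - 2 * Kp q ^ 2 - 2 * Kp r ^ 2) / (Kp p * Kp q * Kp r)

theorem xv_eq {p q r : ℕ} (hp : 3 ≤ p) (hq : 3 ≤ q) (hr : 3 ≤ r) (V : ℝ) :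
    xv p q r V = xw p q r (V - WA p q r) := by
  obtain ⟨p0, p2, p4⟩ := Kp_b hp
  have q0 := (Kp_b hq).1
  have r0 := (Kp_b hr).1
  unfold xv xw gw WA
  rw [xA_eq]
  have := p4.ne'
  have := p0.ne'
  have := q0.ne'
  have := r0.ne'
  field_simp
  ring

theorem xv_mono {p q r : ℕ} (hp : 3 ≤ p) (hq : 3 ≤ q) (hr : 3 ≤ r) {V V' : ℝ} (h : V ≤ V') :
    xv p q r V ≤ xv p q r V' := by
  rw [xv_eq hp hq hr, xv_eq hp hq hr]
  exact xw_mono hp hq hr (by linarith)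

/-- THE RANGE OF `W` -/
theorem W_range {p q r : ℕ} (hp : 3 ≤ p) (hq : 3 ≤ q) (hr : 3 ≤ r) {x : ℝ} (h1 : -2 ≤ x)
    (h2 : x ≤ 2) {V0 V1 : ℝ} (g0 : xv p q r V0 ≤ x) (g1 : x ≤ xv p q r V1) :
    V0 ≤ cW p q r x ∧ cW p q r x ≤ V1 := by
  have hg := gw_pos hp hq hr
  rw [xv_eq hp hq hr] at g0 g1
  have e := cW_eq hp hq hr h1 h2
  unfold xw at g0 g1
  have k0 : V0 - WA p q r ≤ (x - xA p q r) * gw p q r := by
    rw [← div_le_iff₀ hg]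
    linarith
  have k1 : (x - xA p q r) * gw p q r ≤ V1 - WA p q r := by
    rw [← le_div_iff₀ hg]
    linarith
  constructor <;> linarith

/-- **A POINT OF THE BOX** over the base `S` -/
theorem box_ptS {p q r : ℕ} (hp : 3 ≤ p) (hp15 : p ≤ 15) (hq : 3 ≤ q) (hr : 3 ≤ r) {S : Sb}
    {B : Bx} (ha : Rg (Kp q ^ 2) B.A0 B.A1 B.ra) (hs : Rg (sr q r) B.S0 B.S1 B.rs) {x : ℝ}
    (h1 : -2 ≤ x) (h2 : x ≤ 2) (g0 : xv p q r (WB S p q r + B.W0 / 2 ^ 48) ≤ x)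
    (g1 : x ≤ xv p q r (WB S p q r + B.W1 / 2 ^ 48)) (hD : 3 ≤ D) (hD4 : D ≤ 4)
    (hA : AOK D lf A) (hqd : ∀ j < 3, CD D j lf (qd j)) {u : ℝ} (h0 : 0 ≤ u) (h1' : u ≤ 1) :
    ∃ t : ℕ → ℝ, PT D t ∧ t 3 = u ∧ ParS p q r S B x t ∧
      BxT D lf t p q r x (bxS A qd p S B) := by
  obtain ⟨k0, k1⟩ := W_range hp hq hr h1 h2 g0 g1
  have hw : Rg (cW p q r x - WB S p q r) B.W0 B.W1 0 := by
    have k0' : (B.W0 : ℝ) / 2 ^ 48 ≤ cW p q r x - WB S p q r := by linarith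
    have k1' : cW p q r x - WB S p q r ≤ (B.W1 : ℝ) / 2 ^ 48 := by linarith
    rw [div_le_iff₀ (by positivity)] at k0'
    rw [le_div_iff₀ (by positivity)] at k1'
    exact Rg.of_mem (by linarith) (by linarith)
  obtain ⟨t, ht, hpar, h3⟩ := parS_ex hD4 ha hs hw h0 h1'
  exact ⟨t, ht, h3, hpar, bxS_ok hA ht hqd hD hp hp15 hq hpar⟩

/-! ### pieces between two values of `W` -/

/-- THE STATEMENT OF A PIECE: windows with `V0 ≤ W ≤ V1` -/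
def PcV (Q : ℝ → Prop) (p q r : ℕ) (m V0 V1 : ℝ) : Prop := ∀ a b : ℝ, -2 < a → a < b →
  b < 2 → b ≤ m → xA p q r ≤ a → xv p q r V0 ≤ a → b ≤ xv p q r V1 →
  (∀ x, a < x → x < b → Q x) → Win p q r a b

theorem PcV.mono {Q : ℝ → Prop} {p q r : ℕ} (hp : 3 ≤ p) (hq : 3 ≤ q) (hr : 3 ≤ r)
    {m V0 V1 V0' V1' : ℝ} (h : PcV Q p q r m V0 V1) (h0 : V0 ≤ V0') (h1 : V1' ≤ V1) :
    PcV Q p q r m V0' V1' := fun a b g1 g2 g3 g4 g5 g6 g7 g8 =>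
  h a b g1 g2 g3 g4 g5 ((xv_mono hp hq hr h0).trans g6) (g7.trans (xv_mono hp hq hr h1)) g8

theorem PcV.join {Q : ℝ → Prop} {p q r : ℕ} (hp : 3 ≤ p) (hq : 3 ≤ q) (hr : 3 ≤ r)
    {m V0 V1 V1' V2 : ℝ} (h : PcV Q p q r m V0 V1) (h' : PcV Q p q r m V1' V2)
    (hV : V1' ≤ V1) : PcV Q p q r m V0 V2 := by
  intro a b g1 g2 g3 g4 g5 g6 g7 g8
  have hx := xv_mono hp hq hr hV
  rcases le_total b (xv p q r V1) with h1 | h1
  · exact h a b g1 g2 g3 g4 g5 g6 h1 g8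
  · rcases le_or_gt (xv p q r V1) a with h2 | h2
    · exact h' a b g1 g2 g3 g4 g5 (hx.trans h2) g7 g8
    · rcases h1.eq_or_lt with h3 | h3
      · exact h a b g1 g2 g3 g4 g5 g6 h3.symm.le g8
      · exact Pool.Agent.Helper6.MONO.W2.Win.join
          (h a (xv p q r V1) g1 h2 (h3.trans g3) (h3.le.trans g4) g5 g6 le_rfl
            (fun x k1 k2 => g8 x k1 (k2.trans h3)))
          (h' (xv p q r V1) b (g1.trans h2) h3 g3 g4 (g5.trans h2.le) hx g7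
            (fun x k1 k2 => g8 x (h2.trans k1) k2))

theorem PcV.win {Q : ℝ → Prop} {p q r : ℕ} (hp : 3 ≤ p) (hq : 3 ≤ q) (hqr : q ≤ r)
    {m V0 V1 : ℝ} (h : PcV Q p q r m V0 V1) {x0 : ℝ} (hm : m < 2) (hA : xA p q r ≤ x0)
    (h0m : x0 ≤ m) (hQ : ∀ x, x0 < x → x < m → Q x) (h0 : xv p q r V0 ≤ x0)
    (h1 : m ≤ xv p q r V1) : Win p q r x0 m := by
  have hgt := xA_gt (p := p) hp hq hqr
  rcases h0m.eq_or_lt with h2 | h2
  · rw [← h2]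
    exact Win.self _ (by linarith) (h0m.trans hm.le)
  · exact h x0 m (by linarith) h2 hm le_rfl hA h0 h1 hQ

/-- the old pieces -/
theorem PcV_of_PcQ {Q : ℝ → Prop} {p q r : ℕ} (hp : 3 ≤ p) (hq : 3 ≤ q) (hr : 3 ≤ r) {m : ℝ}
    {w w' : ℕ} (h : PcQ Q p q r m w w') :
    PcV Q p q r m (WA p q r + w / 2 ^ 48) (WA p q r + w' / 2 ^ 48) := by
  intro a b g1 g2 g3 g4 g5 g6 g7 g8
  rw [xv_eq hp hq hr, add_sub_cancel_left] at g6 g7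
  exact h a b g1 g2 g3 g4 g5 g6 g7 g8

/-! ### points of depth 2 -/

/-- models of `Kp p`, `κ_q²`, `4 - κ_q²`, `κ_r² - κ_q²`, `κ_r²` at depth 2 -/
structure Pt2 (p q r : ℕ) (t : ℕ → ℝ) (k a f m b : Mo (N3 (N3 Cx))) : Prop where
  hP : PT 2 t
  k : TOK 2 (nlf (nlf lf0)) t ((Kp p : ℝ) : ℂ) k
  a : TOK 2 (nlf (nlf lf0)) t ((Kp q ^ 2 : ℝ) : ℂ) a
  f : TOK 2 (nlf (nlf lf0)) t ((4 - Kp q ^ 2 : ℝ) : ℂ) f
  m : TOK 2 (nlf (nlf lf0)) t ((Kp r ^ 2 - Kp q ^ 2 : ℝ) : ℂ) m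
  b : TOK 2 (nlf (nlf lf0)) t ((Kp r ^ 2 : ℝ) : ℂ) b

/-- a test of depth 2 for the box -/
def tst4 (T : Mo (N3 (N3 Cx)) → Mo (N3 (N3 Cx)) → Mo (N3 (N3 Cx)) → Mo (N3 (N3 Cx)) →
    Mo (N3 (N3 Cx)) → Bool) (k a f m : Mo (N3 (N3 Cx))) : Bool :=
  T k a f m (addM Pool.Agent.Helper86.CT.A2 a m)
def tst3 (T : Mo (N3 (N3 Cx)) → Mo (N3 (N3 Cx)) → Mo (N3 (N3 Cx)) → Mo (N3 (N3 Cx)) →
    Mo (N3 (N3 Cx)) → Bool) (k a s f : Mo (N3 (N3 Cx))) : Bool :=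
  tst4 T k a f (mulM Pool.Agent.Helper86.CT.A2 f s)
def tst2 (T : Mo (N3 (N3 Cx)) → Mo (N3 (N3 Cx)) → Mo (N3 (N3 Cx)) → Mo (N3 (N3 Cx)) →
    Mo (N3 (N3 Cx)) → Bool) (k a s : Mo (N3 (N3 Cx))) : Bool :=
  tst3 T k a s (subM Pool.Agent.Helper86.CT.A2 (foM Pool.Agent.Helper86.CT.A2) a)
def tst (p A0 A1 ra S0 S1 rs : Nat) (T : Mo (N3 (N3 Cx)) → Mo (N3 (N3 Cx)) → Mo (N3 (N3 Cx)) →
    Mo (N3 (N3 Cx)) → Mo (N3 (N3 Cx)) → Bool) : Bool :=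
  tst2 T (cst Pool.Agent.Helper86.CT.A2 (tK p) (nat_lit 1))
    (afM Pool.Agent.Helper86.CT.A2 (qx2 (nat_lit 0)) A0 A1 ra)
    (afM Pool.Agent.Helper86.CT.A2 (qx2 (nat_lit 1)) S0 S1 rs)

theorem tst_ok {p q r : ℕ} (hp : 3 ≤ p) (hp15 : p ≤ 15) (hq : 3 ≤ q)
    {A0 A1 ra S0 S1 rs : ℕ} (ha : Rg (Kp q ^ 2) A0 A1 ra) (hs : Rg (sr q r) S0 S1 rs)
    {T : Mo (N3 (N3 Cx)) → Mo (N3 (N3 Cx)) → Mo (N3 (N3 Cx)) → Mo (N3 (N3 Cx)) →
      Mo (N3 (N3 Cx)) → Bool} (h : tst p A0 A1 ra S0 S1 rs T = true) :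
    ∃ t k a f m b, Pt2 p q r t k a f m b ∧ T k a f m b = true := by
  obtain ⟨s0, a0, a1, a2⟩ := ha.par
  obtain ⟨s1, b0, b1, b2⟩ := hs.par
  set t : ℕ → ℝ := fun j => if j = 0 then s0 else s1 with ht
  have hP : PT 2 t := by
    refine ⟨fun j _ => ?_, fun j _ => ?_, by norm_num⟩
    · show 0 ≤ (if j = 0 then s0 else s1)
      split_ifs <;> assumption
    · show (if j = 0 then s0 else s1) ≤ 1
      split_ifs <;> assumption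
  have hA := A2_ok
  have ta : TOK 2 (nlf (nlf lf0)) t ((Kp q ^ 2 : ℝ) : ℂ)
      (afM Pool.Agent.Helper86.CT.A2 (qx2 (nat_lit 0)) A0 A1 ra) :=
    TOK_af hA hP (CD2 0 (by norm_num)) (by norm_num) a2
  have ts : TOK 2 (nlf (nlf lf0)) t ((sr q r : ℝ) : ℂ)
      (afM Pool.Agent.Helper86.CT.A2 (qx2 (nat_lit 1)) S0 S1 rs) :=
    TOK_af hA hP (CD2 1 (by norm_num)) (by norm_num) b2
  have tk : TOK 2 (nlf (nlf lf0)) t ((Kp p : ℝ) : ℂ)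
      (cst Pool.Agent.Helper86.CT.A2 (tK p) (nat_lit 1)) := TOK_rc hA hP (tK_ok hp hp15)
  obtain ⟨q0, q2, q4⟩ := Kp_b hq
  have eb : (4 - Kp q ^ 2) * sr q r = Kp r ^ 2 - Kp q ^ 2 := by
    unfold sr
    rw [mul_div_cancel₀ _ q4.ne']
  have tf : TOK 2 (nlf (nlf lf0)) t ((4 - Kp q ^ 2 : ℝ) : ℂ)
      (subM Pool.Agent.Helper86.CT.A2 (foM Pool.Agent.Helper86.CT.A2)
        (afM Pool.Agent.Helper86.CT.A2 (qx2 (nat_lit 0)) A0 A1 ra)) :=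
    tc ((TOK_four hA hP).sub hA ta) (by push_cast; rfl)
  have tm : TOK 2 (nlf (nlf lf0)) t ((Kp r ^ 2 - Kp q ^ 2 : ℝ) : ℂ) _ :=
    tc (tf.mul hA hP ts) (by rw [← Complex.ofReal_mul, eb])
  have tb : TOK 2 (nlf (nlf lf0)) t ((Kp r ^ 2 : ℝ) : ℂ) _ :=
    tc (ta.add hA tm) (by rw [← Complex.ofReal_add]; congr 1; ring)
  exact ⟨t, _, _, _, _, _, ⟨hP, tk, ta, tf, tm, tb⟩, h⟩

/-- a natural number in units -/
theorem TOK_n {α : Type} {D : ℕ} {lf : α → Vt D → ℂ} {A : Alg α} {t : ℕ → ℝ} (hA : AOK D lf A)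
    (hP : PT D t) (n : ℕ) : TOK D lf t (((n : ℝ) / 2 ^ 48 : ℝ) : ℂ) (cst A n (nat_lit 0)) := by
  refine TOK_rc hA hP ?_
  rw [mul_div_cancel₀ _ (by positivity), sub_self, abs_zero]
  exact Nat.cast_nonneg _

/-! ### joint of two pieces -/

def jnF (p : ℕ) (S : Sb) (w : Nat) (S' : Sb) (w' : Nat) (_k a f m b : Mo (N3 (N3 Cx))) : Bool :=
  enT2 Ps2 (subM Pool.Agent.Helper86.CT.A2
    (addM Pool.Agent.Helper86.CT.A2 (bsM Pool.Agent.Helper86.CT.A2 p S a b f m)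
      (cst Pool.Agent.Helper86.CT.A2 w (nat_lit 0)))
    (addM Pool.Agent.Helper86.CT.A2 (bsM Pool.Agent.Helper86.CT.A2 p S' a b f m)
      (cst Pool.Agent.Helper86.CT.A2 w' (nat_lit 0))))
/-- THE TEST OF A JOINT: `W_S' + w' ≤ W_S + w` on the box -/
def jnT (p A0 A1 ra S0 S1 rs : Nat) (S : Sb) (w : Nat) (S' : Sb) (w' : Nat) : Bool :=
  tst p A0 A1 ra S0 S1 rs (jnF p S w S' w')

theorem jn_ok {p q r : ℕ} (hp : 3 ≤ p) (hp15 : p ≤ 15) (hq : 3 ≤ q)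
    {A0 A1 ra S0 S1 rs w w' : ℕ} {S S' : Sb} (ha : Rg (Kp q ^ 2) A0 A1 ra)
    (hs : Rg (sr q r) S0 S1 rs) (h : jnT p A0 A1 ra S0 S1 rs S w S' w' = true) :
    WB S' p q r + w' / 2 ^ 48 ≤ WB S p q r + w / 2 ^ 48 := by
  obtain ⟨t, k, a, f, m, b, hp2, h⟩ := tst_ok hp hp15 hq ha hs h
  obtain ⟨hP, tk, ta, tf, tm, tb⟩ := hp2
  have hA := A2_ok
  have t1 := (WB_ok hA hP hp hp15 S ta tb tf tm).add hA (TOK_n hA hP w)
  have t2 := (WB_ok hA hP hp hp15 S' ta tb tf tm).add hA (TOK_n hA hP w')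
  have t3 : TOK 2 (nlf (nlf lf0)) t (((WB S p q r + w / 2 ^ 48) -
      (WB S' p q r + w' / 2 ^ 48) : ℝ) : ℂ) _ := tc (t1.sub hA t2) (by push_cast; rfl)
  have := TOK.nn hP PsL2 t3 h
  linarith

/-! ### the start: the discriminant is negative -/

/-- the discriminant in terms of `y = κ_p κ_q κ_r x`, `S = Σ κ² - 3` and `Q = (κ_p κ_q κ_r)²` -/
def dsc (S Q y : ℝ) : ℝ := (S ^ 2 + Q + S * y) ^ 2 + 8 * (S ^ 3 + 3 / 2 * S ^ 2 * y +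
  3 * S * (y ^ 2 / 2 - Q) + (y ^ 3 - 3 * Q * y) / 2) + 18 * (S ^ 2 + Q + S * y) - 27

theorem dsc_eq (S K x : ℝ) : fBx S K x = dsc S (K ^ 2) (K * x) := by
  unfold fBx dsc
  ring

theorem dsc_Z (S Q y : ℝ) : dsc S Q y = (Q + S * (y + S)) * (Q + S * (y + S)) +
    18 * (Q + S * (y + S)) - 27 + 4 * ((y + S + S) *
      ((y + S) * (y + S) - S * (y + S) + S * S - (Q + Q + Q))) := by
  unfold dsc
  ring

/-- `- dsc - 2 ^ (-48)`; `u = S Z`, `g = Q + u` -/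
def stM (S Q Z u g : Mo (N3 (N3 Cx))) : Mo (N3 (N3 Cx)) :=
  subM Pool.Agent.Helper86.CT.A2
    (subM Pool.Agent.Helper86.CT.A2
      (subM Pool.Agent.Helper86.CT.A2
        (cst Pool.Agent.Helper86.CT.A2 (nat_lit 7599824371187711) (nat_lit 0))
        (mulM Pool.Agent.Helper86.CT.A2
          (cst Pool.Agent.Helper86.CT.A2 (nat_lit 5066549580791808) (nat_lit 0)) g))
      (mulM Pool.Agent.Helper86.CT.A2 g g))
    (mulM Pool.Agent.Helper86.CT.A2 (foM Pool.Agent.Helper86.CT.A2)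
      (mulM Pool.Agent.Helper86.CT.A2 (addM Pool.Agent.Helper86.CT.A2 Z S)
        (subM Pool.Agent.Helper86.CT.A2
          (addM Pool.Agent.Helper86.CT.A2
            (subM Pool.Agent.Helper86.CT.A2 (mulM Pool.Agent.Helper86.CT.A2 Z Z) u)
            (mulM Pool.Agent.Helper86.CT.A2 S S))
          (addM Pool.Agent.Helper86.CT.A2 (addM Pool.Agent.Helper86.CT.A2 Q Q) Q))))
def stF4 (S Q Z u : Mo (N3 (N3 Cx))) : Bool :=
  enT2 Ps2 (stM S Q Z u (addM Pool.Agent.Helper86.CT.A2 Q u))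
def stF3 (S Q Z : Mo (N3 (N3 Cx))) : Bool :=
  stF4 S Q Z (mulM Pool.Agent.Helper86.CT.A2 S Z)
/-- `2 (x1 < - n / 2 ^ 48)`: `- 2 y - n κ_p (a + b) - 2 ^ (-48)` -/
def stL (n : Nat) (k a b y : Mo (N3 (N3 Cx))) : Bool :=
  enT2 Ps2 (subM Pool.Agent.Helper86.CT.A2
    (subM Pool.Agent.Helper86.CT.A2
      (cst Pool.Agent.Helper86.CT.A2 (nat_lit 0) (nat_lit 0))
      (addM Pool.Agent.Helper86.CT.A2 y y))
    (addM Pool.Agent.Helper86.CT.A2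
      (mulM Pool.Agent.Helper86.CT.A2
        (mulM Pool.Agent.Helper86.CT.A2 (cst Pool.Agent.Helper86.CT.A2 n (nat_lit 0)) k)
        (addM Pool.Agent.Helper86.CT.A2 a b))
      (cst Pool.Agent.Helper86.CT.A2 (nat_lit 1) (nat_lit 0))))
def stF2 (n : Nat) (k a b S y Q : Mo (N3 (N3 Cx))) : Bool :=
  andB (stL n k a b y) (stF3 S Q (addM Pool.Agent.Helper86.CT.A2 y S))
/-- `y = V (4 - P) - 2 a - 2 b` -/
def yM (V P a b : Mo (N3 (N3 Cx))) : Mo (N3 (N3 Cx)) :=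
  subM Pool.Agent.Helper86.CT.A2
    (mulM Pool.Agent.Helper86.CT.A2 V
      (subM Pool.Agent.Helper86.CT.A2 (foM Pool.Agent.Helper86.CT.A2) P))
    (addM Pool.Agent.Helper86.CT.A2 (addM Pool.Agent.Helper86.CT.A2 a b)
      (addM Pool.Agent.Helper86.CT.A2 a b))
def stF1 (n : Nat) (k P a b V : Mo (N3 (N3 Cx))) : Bool :=
  stF2 n k a b (subM Pool.Agent.Helper86.CT.A2
    (addM Pool.Agent.Helper86.CT.A2 P (addM Pool.Agent.Helper86.CT.A2 a b))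
    (cst Pool.Agent.Helper86.CT.A2 (nat_lit 844424930131968) (nat_lit 0)))
    (yM V P a b) (mulM Pool.Agent.Helper86.CT.A2 P (mulM Pool.Agent.Helper86.CT.A2 a b))
def stF (p : ℕ) (n : Nat) (S : Sb) (w : Nat) (k a f m b : Mo (N3 (N3 Cx))) : Bool :=
  stF1 n k (mulM Pool.Agent.Helper86.CT.A2 k k) a b (addM Pool.Agent.Helper86.CT.A2
    (bsM Pool.Agent.Helper86.CT.A2 p S a b f m) (cst Pool.Agent.Helper86.CT.A2 w (nat_lit 0)))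
/-- **THE TEST OF THE START**: on the box the discriminant is negative at `W = W_S + w`, and this
point is smaller than `- n / 2 ^ 48` -/
def stT (p A0 A1 ra S0 S1 rs n : Nat) (S : Sb) (w : Nat) : Bool :=
  tst p A0 A1 ra S0 S1 rs (stF p n S w)

theorem y_ok {p q r : ℕ} {t : ℕ → ℝ} {V : ℝ} {v P a b : Mo (N3 (N3 Cx))} (hP : PT 2 t)
    (tv : TOK 2 (nlf (nlf lf0)) t ((V : ℝ) : ℂ) v)
    (tP : TOK 2 (nlf (nlf lf0)) t ((Kp p ^ 2 : ℝ) : ℂ) P)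
    (ta : TOK 2 (nlf (nlf lf0)) t ((Kp q ^ 2 : ℝ) : ℂ) a)
    (tb : TOK 2 (nlf (nlf lf0)) t ((Kp r ^ 2 : ℝ) : ℂ) b) :
    TOK 2 (nlf (nlf lf0)) t ((V * (4 - Kp p ^ 2) - 2 * Kp q ^ 2 - 2 * Kp r ^ 2 : ℝ) : ℂ)
      (yM v P a b) :=
  tc ((tv.mul A2_ok hP ((TOK_four A2_ok hP).sub A2_ok tP)).sub A2_ok
    ((ta.add A2_ok tb).add A2_ok (ta.add A2_ok tb))) (by push_cast; ring)

theorem st_ok {p q r : ℕ} (hp : 3 ≤ p) (hp15 : p ≤ 15) (hq : 3 ≤ q) (hr : 3 ≤ r)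
    {A0 A1 ra S0 S1 rs n w : ℕ} {S : Sb} (ha : Rg (Kp q ^ 2) A0 A1 ra)
    (hs : Rg (sr q r) S0 S1 rs) (h : stT p A0 A1 ra S0 S1 rs n S w = true) :
    fB p q r (xv p q r (WB S p q r + w / 2 ^ 48)) < 0 ∧
      xv p q r (WB S p q r + w / 2 ^ 48) < -((n : ℝ) / 2 ^ 48) := by
  obtain ⟨t, k, a, f, m, b, hp2, h⟩ := tst_ok hp hp15 hq ha hs h
  obtain ⟨hP, tk, ta, tf, tm, tb⟩ := hp2
  have hA := A2_ok
  obtain ⟨p0, p2, p4⟩ := Kp_b hp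
  have q0 := (Kp_b hq).1
  have r0 := (Kp_b hr).1
  have tV : TOK 2 (nlf (nlf lf0)) t ((WB S p q r + w / 2 ^ 48 : ℝ) : ℂ) _ :=
    tc ((WB_ok hA hP hp hp15 S ta tb tf tm).add hA (TOK_n hA hP w)) (by push_cast; rfl)
  have tP : TOK 2 (nlf (nlf lf0)) t ((Kp p ^ 2 : ℝ) : ℂ) _ :=
    tc (tk.mul hA hP tk) (by push_cast; ring)
  set V : ℝ := WB S p q r + w / 2 ^ 48 with hV
  have ty := y_ok hP tV tP ta tb
  set y : ℝ := V * (4 - Kp p ^ 2) - 2 * Kp q ^ 2 - 2 * Kp r ^ 2 with hy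
  have tS : TOK 2 (nlf (nlf lf0)) t ((Kp p ^ 2 + Kp q ^ 2 + Kp r ^ 2 - 3 : ℝ) : ℂ) _ :=
    tc ((tP.add hA (ta.add hA tb)).sub hA (TOK.cst' hA hP
      (c := nat_lit 844424930131968) (f := 3) (by unfold UU; norm_num))) (by push_cast; ring)
  have tQ : TOK 2 (nlf (nlf lf0)) t ((Kp p ^ 2 * (Kp q ^ 2 * Kp r ^ 2) : ℝ) : ℂ) _ :=
    tc (tP.mul hA hP (ta.mul hA hP tb)) (by push_cast; ring)
  obtain ⟨h1, h2⟩ := andB_t h
  set K : ℝ := Kp p * Kp q * Kp r with hK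
  have hK0 : 0 < K := by positivity
  have hx : K * xv p q r V = y := by
    unfold xv
    rw [← hK, mul_div_cancel₀ _ hK0.ne']
  constructor
  · set s : ℝ := Kp p ^ 2 + Kp q ^ 2 + Kp r ^ 2 - 3 with hs'
    set Q : ℝ := Kp p ^ 2 * (Kp q ^ 2 * Kp r ^ 2) with hQ
    have hK2 : K ^ 2 = Q := by rw [hK, hQ]; ring
    have tZ := ty.add hA tS
    have tu := tS.mul hA hP tZ
    have tg := tQ.add hA tu
    have tF : TOK 2 (nlf (nlf lf0)) t ((27 - 1 / 2 ^ 48 - 18 * (Q + s * (y + s)) -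
        (Q + s * (y + s)) * (Q + s * (y + s)) - 4 * ((y + s + s) *
      ((y + s) * (y + s) - s * (y + s) + s * s - (Q + Q + Q))) : ℝ) : ℂ) _ :=
      tc (((((TOK.cst' hA hP (c := nat_lit 7599824371187711) (f := (27 - 1 / 2 ^ 48 : ℂ))
        (by unfold UU; norm_num)).sub hA
        ((TOK.cst' hA hP (c := nat_lit 5066549580791808) (f := (18 : ℂ))
        (by unfold UU; norm_num)).mul hA hP tg)).sub hA (tg.mul hA hP tg)).sub hA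
        ((TOK_four hA hP).mul hA hP ((tZ.add hA tS).mul hA hP
          ((((tZ.mul hA hP tZ).sub hA tu).add hA (tS.mul hA hP tS)).sub hA
            ((tQ.add hA tQ).add hA tQ)))))) (by push_cast; ring)
    have key := TOK.nn hP PsL2 tF h2
    rw [fB_eq, dsc_eq, ← hK, hx, hK2, dsc_Z]
    have e0 : (0 : ℝ) < 1 / 2 ^ 48 := by positivity
    linarith
  · have tF : TOK 2 (nlf (nlf lf0)) t (((0 - (y + y)) - ((n : ℝ) / 2 ^ 48 * Kp p *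
        (Kp q ^ 2 + Kp r ^ 2) + 1 / 2 ^ 48) : ℝ) : ℂ) _ :=
      tc (((TOK.cst' hA hP (c := nat_lit 0) (f := (0 : ℂ)) (by unfold UU; norm_num)).sub hA
        (ty.add hA ty)).sub hA ((((TOK_n hA hP n).mul hA hP tk).mul hA hP (ta.add hA tb)).add hA
        (TOK.cst' hA hP (c := nat_lit 1) (f := (1 / 2 ^ 48 : ℂ)) (by unfold UU; norm_num))))
        (by push_cast; ring)
    have key := TOK.nn hP PsL2 tF h1
    have e0 : (0 : ℝ) < 1 / 2 ^ 48 := by positivity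
    have hn : (0 : ℝ) ≤ (n : ℝ) / 2 ^ 48 * Kp p := by positivity
    have h3 : (n : ℝ) / 2 ^ 48 * Kp p * (Kp q * Kp r) ≤
        (n : ℝ) / 2 ^ 48 * Kp p * ((Kp q ^ 2 + Kp r ^ 2) / 2) :=
      mul_le_mul_of_nonneg_left (by nlinarith [sq_nonneg (Kp q - Kp r)]) hn
    have h4 : y < -((n : ℝ) / 2 ^ 48) * K := by
      rw [hK]
      nlinarith
    have h5 : K * xv p q r V < K * -((n : ℝ) / 2 ^ 48) := by
      rw [hx]
      linarith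
    exact lt_of_mul_lt_mul_left h5 hK0.le

/-! ### the end of the window -/

def enF3 (n : Nat) (k y G : Mo (N3 (N3 Cx))) : Bool :=
  enT2 Ps2 (addM Pool.Agent.Helper86.CT.A2 y
    (mulM Pool.Agent.Helper86.CT.A2
      (mulM Pool.Agent.Helper86.CT.A2 (cst Pool.Agent.Helper86.CT.A2 n (nat_lit 0)) k) G))
def enF2 (n : Nat) (k a b y : Mo (N3 (N3 Cx))) : Bool :=
  andB (invOK Pool.Agent.Helper86.CT.A2 (addM Pool.Agent.Helper86.CT.A2 a b))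
    (enF3 n k y (mulM Pool.Agent.Helper86.CT.A2
      (mulM Pool.Agent.Helper86.CT.A2 (addM Pool.Agent.Helper86.CT.A2 a a) b)
      (invM Pool.Agent.Helper86.CT.A2 (addM Pool.Agent.Helper86.CT.A2 a b))))
def enF (p : ℕ) (n : Nat) (S : Sb) (w : Nat) (k a f m b : Mo (N3 (N3 Cx))) : Bool :=
  enF2 n k a b (yM (addM Pool.Agent.Helper86.CT.A2
    (bsM Pool.Agent.Helper86.CT.A2 p S a b f m) (cst Pool.Agent.Helper86.CT.A2 w (nat_lit 0)))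
    (mulM Pool.Agent.Helper86.CT.A2 k k) a b)
/-- **THE TEST OF THE END**: on the box the point with `W = W_S + w` is at least `- n / 2 ^ 48` -/
def enS (p A0 A1 ra S0 S1 rs n : Nat) (S : Sb) (w : Nat) : Bool :=
  tst p A0 A1 ra S0 S1 rs (enF p n S w)

theorem enS_ok {p q r : ℕ} (hp : 3 ≤ p) (hp15 : p ≤ 15) (hq : 3 ≤ q) (hr : 3 ≤ r)
    {A0 A1 ra S0 S1 rs n w : ℕ} {S : Sb} (ha : Rg (Kp q ^ 2) A0 A1 ra)
    (hs : Rg (sr q r) S0 S1 rs) (h : enS p A0 A1 ra S0 S1 rs n S w = true) :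
    -((n : ℝ) / 2 ^ 48) ≤ xv p q r (WB S p q r + w / 2 ^ 48) := by
  obtain ⟨t, k, a, f, m, b, hp2, h⟩ := tst_ok hp hp15 hq ha hs h
  obtain ⟨hP, tk, ta, tf, tm, tb⟩ := hp2
  have hA := A2_ok
  obtain ⟨p0, p2, p4⟩ := Kp_b hp
  have q0 := (Kp_b hq).1
  have r0 := (Kp_b hr).1
  have tV : TOK 2 (nlf (nlf lf0)) t ((WB S p q r + w / 2 ^ 48 : ℝ) : ℂ) _ :=
    tc ((WB_ok hA hP hp hp15 S ta tb tf tm).add hA (TOK_n hA hP w)) (by push_cast; rfl)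
  have tP : TOK 2 (nlf (nlf lf0)) t ((Kp p ^ 2 : ℝ) : ℂ) _ :=
    tc (tk.mul hA hP tk) (by push_cast; ring)
  set V : ℝ := WB S p q r + w / 2 ^ 48 with hV
  have ty := y_ok hP tV tP ta tb
  set y : ℝ := V * (4 - Kp p ^ 2) - 2 * Kp q ^ 2 - 2 * Kp r ^ 2 with hy
  obtain ⟨h1, h2⟩ := andB_t h
  have ti := TOK.inv hA hP (ta.add hA tb) h1
  have tF : TOK 2 (nlf (nlf lf0)) t ((y + (n : ℝ) / 2 ^ 48 * Kp p *
      ((Kp q ^ 2 + Kp q ^ 2) * Kp r ^ 2 * (Kp q ^ 2 + Kp r ^ 2)⁻¹) : ℝ) : ℂ) _ :=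
    tc (ty.add hA (((TOK_n hA hP n).mul hA hP tk).mul hA hP
      (((ta.add hA ta).mul hA hP tb).mul hA hP ti.1))) (by push_cast; rfl)
  have key := TOK.nn hP PsL2 tF h2
  set K : ℝ := Kp p * Kp q * Kp r with hK
  have hK0 : 0 < K := by positivity
  have hx : K * xv p q r V = y := by
    unfold xv
    rw [← hK, mul_div_cancel₀ _ hK0.ne']
  have hm : (Kp q ^ 2 + Kp q ^ 2) * Kp r ^ 2 * (Kp q ^ 2 + Kp r ^ 2)⁻¹ ≤ Kp q * Kp r := by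
    rw [← div_eq_mul_inv, div_le_iff₀ (by positivity)]
    nlinarith [mul_pos q0 r0, sq_nonneg (Kp q - Kp r), mul_nonneg (mul_pos q0 r0).le
      (sq_nonneg (Kp q - Kp r))]
  have hk : (n : ℝ) / 2 ^ 48 * Kp p * ((Kp q ^ 2 + Kp q ^ 2) * Kp r ^ 2 *
      (Kp q ^ 2 + Kp r ^ 2)⁻¹) ≤ (n : ℝ) / 2 ^ 48 * Kp p * (Kp q * Kp r) :=
    mul_le_mul_of_nonneg_left hm (by positivity)
  have h5 : K * -((n : ℝ) / 2 ^ 48) ≤ K * xv p q r V := by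
    rw [hx]
    have e : K * -((n : ℝ) / 2 ^ 48) = -((n : ℝ) / 2 ^ 48 * Kp p * (Kp q * Kp r)) := by
      rw [hK]
      ring
    rw [e]
    linarith
  exact le_of_mul_le_mul_left h5 hK0

/-! ### a box from its pieces -/

/-- windows from `W = W_S + w` to `W = W_S' + w'` on a box -/
def PcG (Q : ℕ → ℕ → ℝ → Prop) (p : ℕ) (m : ℝ) (A0 A1 ra S0 S1 rs : ℕ) (S : Sb) (w : ℕ)
    (S' : Sb) (w' : ℕ) : Prop :=
  ∀ q r : ℕ, p ≤ q → q ≤ r → Rg (Kp q ^ 2) A0 A1 ra → Rg (sr q r) S0 S1 rs →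
    PcV (Q q r) p q r m (WB S p q r + w / 2 ^ 48) (WB S' p q r + w' / 2 ^ 48)

theorem PcG.tr {Q : ℕ → ℕ → ℝ → Prop} {p : ℕ} (hp : 3 ≤ p) {m : ℝ}
    {A0 A1 ra S0 S1 rs : ℕ} {S S' S'' : Sb} {w w' w'' : ℕ}
    (h : PcG Q p m A0 A1 ra S0 S1 rs S w S' w') (h' : PcG Q p m A0 A1 ra S0 S1 rs S' w' S'' w'') :
    PcG Q p m A0 A1 ra S0 S1 rs S w S'' w'' := fun q r hpq hqr ha hs =>
  PcV.join hp (hp.trans hpq) ((hp.trans hpq).trans hqr) (h q r hpq hqr ha hs)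
    (h' q r hpq hqr ha hs) le_rfl

theorem PcG.jn {Q : ℕ → ℕ → ℝ → Prop} {p : ℕ} (hp : 3 ≤ p) (hp15 : p ≤ 15) {m : ℝ}
    {A0 A1 ra S0 S1 rs : ℕ} {S S1' S2' S'' : Sb} {w w1 w2 w'' : ℕ}
    (h : PcG Q p m A0 A1 ra S0 S1 rs S w S1' w1)
    (h' : PcG Q p m A0 A1 ra S0 S1 rs S2' w2 S'' w'')
    (hj : jnT p A0 A1 ra S0 S1 rs S1' w1 S2' w2 = true) :
    PcG Q p m A0 A1 ra S0 S1 rs S w S'' w'' := fun q r hpq hqr ha hs =>
  PcV.join hp (hp.trans hpq) ((hp.trans hpq).trans hqr) (h q r hpq hqr ha hs)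
    (h' q r hpq hqr ha hs) (jn_ok hp hp15 (hp.trans hpq) ha hs hj)

/-- the condition of the points for `10 ≤ p` -/
def QB (p : ℕ) : ℕ → ℕ → ℝ → Prop := fun q r x => 0 ≤ fB p q r x

/-- **A BOX FROM ITS PIECES**, start at the threshold -/
theorem PcG.boxB {p : ℕ} (hp : 3 ≤ p) (hp15 : p ≤ 15) {A0 A1 ra S0 S1 rs n n' : ℕ} {m : ℝ}
    {S S' : Sb} {w w' : ℕ} (hm : m < 2) (hn : -((n : ℝ) / 2 ^ 48) ≤ m)
    (hn' : m ≤ -((n' : ℝ) / 2 ^ 48)) (h : PcG (QB p) p m A0 A1 ra S0 S1 rs S w S' w')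
    (hst : stT p A0 A1 ra S0 S1 rs n S w = true)
    (hen : enS p A0 A1 ra S0 S1 rs n' S' w' = true) :
    BoxP (WinT (QB p) p m) p A0 A1 ra S0 S1 rs := by
  intro q r hpq hqr ha hs x0 hx hxm hQ
  have hq : 3 ≤ q := hp.trans hpq
  have hr := hq.trans hqr
  obtain ⟨h1, h2⟩ := st_ok hp hp15 hq hr ha hs hst
  refine (h q r hpq hqr ha hs).win hp hq hqr hm hx hxm hQ ?_
    (hn'.trans (enS_ok hp hp15 hq hr ha hs hen))
  by_contra hc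
  push Not at hc
  have := hQ _ hc (h2.trans_le hn)
  exact absurd h1 (not_lt.2 this)

/-- **A BOX FROM ITS PIECES**, start at `x_A` -/
theorem PcG.boxA {Q : ℕ → ℕ → ℝ → Prop} {p : ℕ} (hp : 3 ≤ p) (hp15 : p ≤ 15)
    {A0 A1 ra S0 S1 rs n' : ℕ} {m : ℝ} {s0 s1 s2 : Z}
    {S' : Sb} {w' : ℕ} (hm : m < 2)
    (hn' : m ≤ -((n' : ℝ) / 2 ^ 48))
    (h : PcG Q p m A0 A1 ra S0 S1 rs ⟨false, s0, s1, s2⟩ 0 S' w')
    (hen : enS p A0 A1 ra S0 S1 rs n' S' w' = true) :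
    BoxP (WinT Q p m) p A0 A1 ra S0 S1 rs := by
  intro q r hpq hqr ha hs x0 hx hxm hQ
  have hq : 3 ≤ q := hp.trans hpq
  have hr := hq.trans hqr
  refine (h q r hpq hqr ha hs).win hp hq hqr hm hx hxm hQ ?_
    (hn'.trans (enS_ok hp hp15 hq hr ha hs hen))
  rw [WB_false, Nat.cast_zero, zero_div, add_zero, xv_eq hp hq hr, sub_self, xw_zero]
  exact hx

end Pool.Agent.Helper91.BX
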