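import Pool.Agent.Helper91.BX.F

/-!
Row M5 (MP_c75db0, star frame), part 6: the fourth direction: parameters, models of depth 3 as models
of depth 4.
-/

set_option autoImplicit false
set_option exponentiation.threshold 4000
noncomputable section
namespace Pool.Agent.Helper91.BX

open Pool.Agent.Helper90.C75 (Vt avg wtT bt avg_const avg_T_succ Wts Mod)
open Pool.Agent.Helper90.KMT
open Pool.Agent.Helper90.KMO (UU UU_pos cz zv zv_p)
open Pool.Agent.Helper86.C75 (Z)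
open Pool.Agent.Helper86.CX (Cx)
open Pool.Agent.Helper86.CT (N3 DF Alg Mo mk cst addM subM mulM conjM A0 A1 A2 A3 A4)
open Pool.Agent.Helper6.MONO (Kp xA)
open Pool.Agent.Helper62.TVM (cstC TOK_cstC tc V3m TW TV)
open Pool.Agent.Helper17.K9 (V9)

/-! ### kernel side -/

/-- a model of depth `D` as a model of depth `D + 1` -/
def upM {α : Type} (M : Mo α) : Mo (N3 α) := ⟨N3.k M.v, M.r, M.B, ⟨(nat_lit 0), (nat_lit 0)⟩ :: M.l⟩
def upW {α : Type} (X : V3m α) : V3m (N3 α) := ⟨upM X.a, upM X.b, upM X.c⟩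
def upV {α : Type} (V : V9 α) : V9 (N3 α) :=
  ⟨upM V.a, upM V.b, upM V.c, upM V.d, upM V.e, upM V.f, upM V.g, upM V.h, upM V.i⟩
def upB {α : Type} (x : BxM α) : BxM (N3 α) :=
  ⟨upM x.kp, upM x.ki, upM x.c, upM x.s, upM x.h, upM x.e, upM x.a, upM x.b, upM x.W⟩
/-- the model of the parameter between `a` and `b` in the outermost direction -/
def crM {α : Type} (A : Alg α) (a b : Nat) : Mo (N3 α) :=
  afM (Pool.Agent.Helper86.CT.nx A) (fun a c b => N3.q (A.cs a) (A.cs c) (A.cs b)) a b (nat_lit 0)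

/-! ### weights -/

variable {α : Type} {D : ℕ} {lf : α → Vt D → ℂ} {A : Alg α} {t t' : ℕ → ℝ}

theorem wtT_congr : ∀ {D : ℕ}, (∀ j < D, t j = t' j) → wtT D t = wtT D t'
  | 0, _ => rfl
  | D + 1, h => by
    have ih : wtT D t = wtT D t' := wtT_congr fun j hj => h j (by omega)
    funext v
    show wtT D t v.1 * bt (t D) v.2 = wtT D t' v.1 * bt (t' D) v.2
    rw [ih, h D (by omega)]

/-- `t` with the value `u` in the direction `D` -/
def tu (D : ℕ) (t : ℕ → ℝ) (u : ℝ) : ℕ → ℝ := fun j => if j = D then u else t j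

theorem tu_self (u : ℝ) : tu D t u D = u := if_pos rfl
theorem tu_lt {j : ℕ} (h : j < D) (u : ℝ) : tu D t u j = t j := if_neg (by omega)

theorem PT.tu (h : PT D t) (hD : D + 1 ≤ 4) {u : ℝ} (h0 : 0 ≤ u) (h1 : u ≤ 1) :
    PT (D + 1) (tu D t u) := by
  refine ⟨fun j hj => ?_, fun j hj => ?_, hD⟩
  · rcases Nat.lt_or_ge j D with h' | h'
    · rw [tu_lt h']
      exact h.h0 j h'
    · have e : j = D := by omega
      rw [e, tu_self]
      exact h0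
  · rcases Nat.lt_or_ge j D with h' | h'
    · rw [tu_lt h']
      exact h.h1 j h'
    · have e : j = D := by omega
      rw [e, tu_self]
      exact h1

theorem avg_up (hD : 0 ≤ t' D) (hD1 : t' D ≤ 1) (h : ∀ j < D, t' j = t j) (x : α) :
    avg (wtT (D + 1) t') (nlf lf (N3.k x)) = avg (wtT D t) (lf x) := by
  rw [avg_T_succ]
  have e : (fun i : Fin 3 => avg (wtT D t') (fun v => nlf lf (N3.k x) (v, i))) =
      fun _ => avg (wtT D t') (lf x) := by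
    funext i
    rfl
  rw [e, avg_const (Wts.bt hD hD1), wtT_congr h]

/-- **A MODEL OF DEPTH `D` IS A MODEL OF DEPTH `D + 1`** -/
theorem TOK.up {f : ℂ} {M : Mo α} (h : TOK D lf t f M) {u : ℝ} (h0 : 0 ≤ u) (h1 : u ≤ 1) :
    TOK (D + 1) (nlf lf) (tu D t u) f (upM M) := by
  refine ⟨⟨fun v => h.val.bd v.1, ?_, ?_, ?_, fun i => h.val.dl⟩, ?_⟩
  · show (_ :: M.l).length = D + 1
    rw [List.length_cons, h.val.len]
  · intro v
    show ‖lf M.v v - lf M.v v‖ ≤ ((nat_lit 0 : ℕ) : ℝ)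
    simp
  · intro v
    show ‖lf M.v v - (lf M.v v + lf M.v v) / 2‖ ≤ ((nat_lit 0 : ℕ) : ℝ)
    have : lf M.v v - (lf M.v v + lf M.v v) / 2 = 0 := by ring
    rw [this]
    simp
  · show ‖(UU : ℂ) * f - avg (wtT (D + 1) (tu D t u)) (nlf lf (N3.k M.v))‖ ≤ (M.r : ℝ)
    rw [avg_up (t := t) (by rw [tu_self]; exact h0) (by rw [tu_self]; exact h1)
      (fun j hj => tu_lt hj u)]
    exact h.mod

theorem TW.up {x : Fin 3 → ℂ} {X : V3m α} (h : TW D lf t x X) {u : ℝ} (h0 : 0 ≤ u) (h1 : u ≤ 1) :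
    TW (D + 1) (nlf lf) (tu D t u) x (upW X) :=
  ⟨TOK.up h.a h0 h1, TOK.up h.b h0 h1, TOK.up h.c h0 h1⟩

theorem TV.up {M : Matrix (Fin 3) (Fin 3) ℂ} {V : V9 α} (h : TV D lf t M V) {u : ℝ}
    (h0 : 0 ≤ u) (h1 : u ≤ 1) : TV (D + 1) (nlf lf) (tu D t u) M (upV V) :=
  ⟨TOK.up h.a h0 h1, TOK.up h.b h0 h1, TOK.up h.c h0 h1, TOK.up h.d h0 h1, TOK.up h.e h0 h1,
    TOK.up h.f h0 h1, TOK.up h.g h0 h1, TOK.up h.h h0 h1, TOK.up h.i h0 h1⟩

theorem BxT.up {p q r : ℕ} {x : ℝ} {M : BxM α} (h : BxT D lf t p q r x M) {u : ℝ}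
    (h0 : 0 ≤ u) (h1 : u ≤ 1) : BxT (D + 1) (nlf lf) (tu D t u) p q r x (upB M) :=
  ⟨TOK.up h.kp h0 h1, TOK.up h.ki h0 h1, TOK.up h.c h0 h1, TOK.up h.s h0 h1, TOK.up h.h h0 h1,
    TOK.up h.e h0 h1, TOK.up h.a h0 h1, TOK.up h.b h0 h1, TOK.up h.W h0 h1⟩

/-- **A PARAMETER BETWEEN `a` AND `b`** (units `2 ^ (-48)`): the point of depth `D + 1` over the
point `t` of depth `D` and the model of the parameter -/
theorem cr_ex (hA : AOK D lf A) (ht : PT D t) (hD : D + 1 ≤ 4) {τ : ℝ} {a b : ℕ}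
    (h1 : (a : ℝ) / 2 ^ 48 ≤ τ) (h2 : τ ≤ (b : ℝ) / 2 ^ 48) : ∃ u : ℝ, 0 ≤ u ∧ u ≤ 1 ∧
      PT (D + 1) (tu D t u) ∧ TOK (D + 1) (nlf lf) (tu D t u) ((τ : ℝ) : ℂ) (crM A a b) := by
  rw [div_le_iff₀ (by positivity)] at h1
  rw [le_div_iff₀ (by positivity)] at h2
  have hr : Rg τ a b 0 := Rg.of_mem (by linarith) (by linarith)
  obtain ⟨u, h0, h1', h3⟩ := hr.par
  refine ⟨u, h0, h1', PT.tu ht hD h0 h1', ?_⟩
  refine TOK_af hA.nx (PT.tu ht hD h0 h1') (CD.top hA) (by omega) ?_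
  rw [tu_self]
  exact h3

theorem Par.tu {p q r : ℕ} {B : Bx} {x : ℝ} (h : Par p q r B x t) (hD : 3 ≤ D) (u : ℝ) :
    Par p q r B x (tu D t u) := by
  obtain ⟨a, b, c⟩ := h
  refine ⟨?_, ?_, ?_⟩
  · rw [tu_lt (by omega)]
    exact a
  · rw [tu_lt (by omega)]
    exact b
  · rw [tu_lt (by omega)]
    exact c

end Pool.Agent.Helper91.BX
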