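import Pool.Agent.Helper12.CX.KAP15

/-!
Row M5 (MP_c75db0, star frame), part 1: the constants of the order `p = 3, ..., 15`.
-/

set_option autoImplicit false
set_option exponentiation.threshold 4000
noncomputable section
namespace Pool.Agent.Helper91.BX

open Pool.Agent.Helper6.MONO

/-- `2 ^ 48 * Kp p`, rounded -/
def tK : ℕ → ℕ
  | 3 => 281474976710656
  | 4 => 398065729532861
  | 5 => 455436079300426
  | 6 => 487528960722123
  | 7 => 507200382219719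
  | 8 => 520097939794132
  | 9 => 528999917101778
  | 10 => 535397221549392
  | 11 => 540146524804357
  | 12 => 543767898917873
  | 13 => 546591650894800
  | 14 => 548835622751895
  | 15 => 550648146272264
  | _ => 0

/-- `2 ^ 48 * cos (π / p)`, rounded -/
def tC : ℕ → ℕ
  | 3 => 140737488355328
  | 4 => 199032864766430
  | 5 => 227718039650213
  | 6 => 243764480361061
  | 7 => 253600191109860
  | 8 => 260048969897066
  | 9 => 264499958550889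
  | 10 => 267698610774696
  | 11 => 270073262402179
  | 12 => 271883949458937
  | 13 => 273295825447400
  | 14 => 274417811375947
  | 15 => 275324073136132
  | _ => 0

/-- `2 ^ 48 * sin (π / p)`, rounded -/
def tS : ℕ → ℕ
  | 3 => 243764480361061
  | 4 => 199032864766430
  | 5 => 165446840199891
  | 6 => 140737488355328
  | 7 => 122127415363247
  | 8 => 107715810212518
  | 9 => 96270111877168
  | 10 => 86980551294885
  | 11 => 79300664875575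
  | 12 => 72851084692506
  | 13 => 67361371031835
  | 14 => 62634074702987
  | 15 => 58521938330802
  | _ => 0

/-- `2 ^ 48 / Kp p`, rounded -/
def tI : ℕ → ℕ
  | 3 => 281474976710656
  | 4 => 199032864766430
  | 5 => 173961102589770
  | 6 => 162509653574041
  | 7 => 156206827304682
  | 8 => 152333159684549
  | 9 => 149769706861828
  | 10 => 147980152539800
  | 11 => 146679019258637
  | 12 => 145702169385013
  | 13 => 144949456115115
  | 14 => 144356815100685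
  | 15 => 143881647564996
  | _ => 0

/-- `2 ^ 48 / (2 sin (π / p))`, rounded -/
def tH : ℕ → ℕ
  | 3 => 162509653574041
  | 4 => 199032864766430
  | 5 => 239436916469791
  | 6 => 281474976710656
  | 7 => 324366819188852
  | 8 => 367764780109584
  | 9 => 411488887721209
  | 10 => 455436079300426
  | 11 => 499542864101931
  | 12 => 543767898917873
  | 13 => 588083060815527
  | 14 => 632468531625693
  | 15 => 676909931335648
  | _ => 0

/-- `2 ^ 48 / (4 - Kp p ^ 2)`, rounded -/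
def tA : ℕ → ℕ
  | 3 => 93824992236885
  | 4 => 140737488355328
  | 5 => 203677206544348
  | 6 => 281474976710656
  | 7 => 373794625086153
  | 8 => 480507841477086
  | 9 => 601556510268743
  | 10 => 736911056011082
  | 11 => 886555089164037
  | 12 => 1050478914143435
  | 13 => 1228676490037225
  | 14 => 1421143890556068
  | 15 => 1627878472521729
  | _ => 0


/-! ### order 13 -/

theorem Kp13_eq : Kp 13 ^ 6 - Kp 13 ^ 5 - 5 * Kp 13 ^ 4 + 4 * Kp 13 ^ 3 + 6 * Kp 13 ^ 2 -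
    3 * Kp 13 - 1 = 0 := by
  have h3 : 1 ≤ Kp 13 := Kp_ge1 (by norm_num)
  have e1 : Real.cos (7 * (Real.pi / 13)) = -Real.cos (6 * (Real.pi / 13)) := by
    rw [← Real.cos_pi_sub]
    congr 1
    ring
  have d2 : Real.cos (2 * (Real.pi / 13)) = 2 * Real.cos (Real.pi / 13) ^ 2 - 1 :=
    Real.cos_two_mul _
  have d3 : Real.cos (3 * (Real.pi / 13)) =
      4 * Real.cos (Real.pi / 13) ^ 3 - 3 * Real.cos (Real.pi / 13) := Real.cos_three_mul _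
  have d6 : Real.cos (6 * (Real.pi / 13)) = 2 * Real.cos (3 * (Real.pi / 13)) ^ 2 - 1 := by
    rw [← Real.cos_two_mul]
    congr 1
    ring
  have d4 : Real.cos (4 * (Real.pi / 13)) = 2 * Real.cos (2 * (Real.pi / 13)) ^ 2 - 1 := by
    rw [← Real.cos_two_mul]
    congr 1
    ring
  have d7 : Real.cos (7 * (Real.pi / 13)) =
      2 * Real.cos (3 * (Real.pi / 13)) * Real.cos (4 * (Real.pi / 13)) -
        Real.cos (Real.pi / 13) := by
    have a := Real.cos_add (4 * (Real.pi / 13)) (3 * (Real.pi / 13))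
    have b := Real.cos_sub (4 * (Real.pi / 13)) (3 * (Real.pi / 13))
    have c1 : 4 * (Real.pi / 13) + 3 * (Real.pi / 13) = 7 * (Real.pi / 13) := by ring
    have c2 : 4 * (Real.pi / 13) - 3 * (Real.pi / 13) = Real.pi / 13 := by ring
    rw [c1] at a
    rw [c2] at b
    linarith
  have hk : Kp 13 = 2 * Real.cos (Real.pi / 13) := by
    unfold Kp
    rw [Nat.cast_ofNat]
  rw [d7, d6, d4, d3, d2] at e1
  set c := Real.cos (Real.pi / 13) with hc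
  have hf : (Kp 13 + 2) * (Kp 13 ^ 6 - Kp 13 ^ 5 - 5 * Kp 13 ^ 4 + 4 * Kp 13 ^ 3 +
      6 * Kp 13 ^ 2 - 3 * Kp 13 - 1) = 0 := by
    rw [hk]
    linear_combination 2 * e1
  rcases mul_eq_zero.1 hf with h | h
  · linarith
  · exact h

theorem mono13 (x y : ℝ) (hx : (1.9 : ℝ) ≤ x) (hxy : x < y) :
    x ^ 6 - x ^ 5 - 5 * x ^ 4 + 4 * x ^ 3 + 6 * x ^ 2 - 3 * x - 1 <
    y ^ 6 - y ^ 5 - 5 * y ^ 4 + 4 * y ^ 3 + 6 * y ^ 2 - 3 * y - 1 := by
  obtain ⟨u, hu⟩ : ∃ u, u = x - 1.9 := ⟨_, rfl⟩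
  obtain ⟨v, hv⟩ : ∃ v, v = y - 1.9 := ⟨_, rfl⟩
  have hx' : x = u + 1.9 := by linarith
  have hy' : y = v + 1.9 := by linarith
  have hu0 : 0 ≤ u := by linarith
  have huv : u < v := by linarith
  have g2 : u ^ 2 ≤ v ^ 2 := by gcongr
  have g3 : u ^ 3 ≤ v ^ 3 := by gcongr
  have g4 : u ^ 4 ≤ v ^ 4 := by gcongr
  have g5 : u ^ 5 ≤ v ^ 5 := by gcongr
  have g6 : u ^ 6 ≤ v ^ 6 := by gcongr
  have key : ∀ w : ℝ, (w + 1.9) ^ 6 - (w + 1.9) ^ 5 - 5 * (w + 1.9) ^ 4 + 4 * (w + 1.9) ^ 3 +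
      6 * (w + 1.9) ^ 2 - 3 * (w + 1.9) - 1 = w ^ 6 + 52 / 5 * w ^ 5 + 793 / 20 * w ^ 4 +
      1677 / 25 * w ^ 3 + 94783 / 2000 * w ^ 2 + 58409 / 6250 * w - 479609 / 1000000 := by
    intro w
    ring
  rw [hx', hy', key, key]
  linarith

theorem kap_13x : |Kp 13 - 546591650894800 / 2 ^ 48| ≤ 1 / 2 ^ 48 := by
  refine kap15_of (fun x => x ^ 6 - x ^ 5 - 5 * x ^ 4 + 4 * x ^ 3 + 6 * x ^ 2 - 3 * x - 1)
    mono13 _ _ (kap15_lo (by norm_num)) (by norm_num) ?_ ?_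
  · show _ ≤ Kp 13 ^ 6 - Kp 13 ^ 5 - 5 * Kp 13 ^ 4 + 4 * Kp 13 ^ 3 + 6 * Kp 13 ^ 2 -
      3 * Kp 13 - 1
    rw [Kp13_eq]
    norm_num
  · show Kp 13 ^ 6 - Kp 13 ^ 5 - 5 * Kp 13 ^ 4 + 4 * Kp 13 ^ 3 + 6 * Kp 13 ^ 2 -
      3 * Kp 13 - 1 ≤ _
    rw [Kp13_eq]
    norm_num

/-! ### the enclosures -/

theorem tK_enc {p : ℕ} (h3 : 3 ≤ p) (h15 : p ≤ 15) :
    ((tK p : ℝ) - 1) / 2 ^ 48 ≤ Kp p ∧ Kp p ≤ ((tK p : ℝ) + 1) / 2 ^ 48 := by
  have k : ∀ {x n : ℝ}, |x - n / 2 ^ 48| ≤ 1 / 2 ^ 48 → (n - 1) / 2 ^ 48 ≤ x ∧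
      x ≤ (n + 1) / 2 ^ 48 := by
    intro x n h
    rw [abs_le] at h
    have e1 : (n - 1) / 2 ^ 48 = n / 2 ^ 48 - 1 / 2 ^ 48 := by ring
    have e2 : (n + 1) / 2 ^ 48 = n / 2 ^ 48 + 1 / 2 ^ 48 := by ring
    constructor
    · linarith [h.1]
    · linarith [h.2]
  rcases Nat.lt_or_ge p 13 with h | h
  · have h' := kap_enc p h3 (by omega)
    have e : tK p = kb p := by
      interval_cases p <;> rfl
    rw [e]
    exact k h'
  · rcases (by omega : p = 13 ∨ p = 14 ∨ p = 15) with rfl | rfl | rfl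
    · have e : ((tK 13 : ℕ) : ℝ) = 546591650894800 := by
        simp only [tK]
        norm_num
      rw [e]
      exact k kap_13x
    · have e : ((tK 14 : ℕ) : ℝ) = 548835622751895 := by
        simp only [tK]
        norm_num
      rw [e]
      exact k kap_14
    · have e : ((tK 15 : ℕ) : ℝ) = 550648146272264 := by
        simp only [tK]
        norm_num
      rw [e]
      exact k kap_15

/-- angle -/
theorem cos_pos3 {p : ℕ} (hp : 3 ≤ p) : 0 < Real.cos (Real.pi / p) ∧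
    0 < Real.sin (Real.pi / p) := by
  have hp' : (3 : ℝ) ≤ p := by exact_mod_cast hp
  have hpi := Real.pi_pos
  have h1 : Real.pi / p ≤ Real.pi / 3 := div_le_div_of_nonneg_left hpi.le (by norm_num) hp'
  have h0 : 0 < Real.pi / p := by positivity
  exact ⟨Real.cos_pos_of_mem_Ioo ⟨by linarith, by linarith⟩,
    Real.sin_pos_of_pos_of_lt_pi h0 (by linarith)⟩

theorem abs_enc {x : ℝ} {n r : ℕ} (h1 : ((n : ℝ) - r) / 2 ^ 48 ≤ x)
    (h2 : x ≤ ((n : ℝ) + r) / 2 ^ 48) : |2 ^ 48 * x - n| ≤ (r : ℝ) := by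
  rw [div_le_iff₀ (by positivity)] at h1
  rw [le_div_iff₀ (by positivity)] at h2
  rw [abs_le]
  constructor <;> linarith

theorem tK_ok {p : ℕ} (h3 : 3 ≤ p) (h15 : p ≤ 15) : |2 ^ 48 * Kp p - tK p| ≤ ((1 : ℕ) : ℝ) := by
  obtain ⟨h1, h2⟩ := tK_enc h3 h15
  exact abs_enc (by simpa using h1) (by simpa using h2)

theorem tC_ok {p : ℕ} (h3 : 3 ≤ p) (h15 : p ≤ 15) :
    |2 ^ 48 * Real.cos (Real.pi / p) - tC p| ≤ ((1 : ℕ) : ℝ) := by
  obtain ⟨h1, h2⟩ := tK_enc h3 h15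
  have hk : Kp p = 2 * Real.cos (Real.pi / p) := rfl
  have e : (((tK p : ℕ) : ℝ) - 1) ≤ 2 * (tC p : ℕ) ∧ 2 * ((tC p : ℕ) : ℝ) ≤ (tK p : ℕ) + 1 := by
    interval_cases p <;> simp only [tK, tC] <;> norm_num
  rw [hk] at h1 h2
  rw [div_le_iff₀ (by positivity)] at h1
  rw [le_div_iff₀ (by positivity)] at h2
  rw [abs_le]
  push_cast
  constructor <;> linarith [e.1, e.2]


theorem le_sq {a b : ℝ} (h : a ^ 2 ≤ b ^ 2) (hb : 0 ≤ b) : a ≤ b :=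
  le_of_not_gt fun h' => absurd h (not_le.2 (by nlinarith))

/-- the sine -/
theorem enc_sin {k s kl kh sl sh : ℝ} (hs : 0 ≤ s) (h : s ^ 2 = 1 - (k / 2) ^ 2) (hkl : 0 ≤ kl)
    (h1 : kl ≤ k) (h2 : k ≤ kh) (hsh : 0 ≤ sh)
    (g1 : sl ^ 2 ≤ 1 - (kh / 2) ^ 2) (g2 : 1 - (kl / 2) ^ 2 ≤ sh ^ 2) : sl ≤ s ∧ s ≤ sh := by
  have e1 : k ^ 2 ≤ kh ^ 2 := by
    have := hkl.trans h1
    gcongr
  have e2 : kl ^ 2 ≤ k ^ 2 := by gcongr
  constructor
  · apply le_sq _ hs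
    rw [h]
    linarith
  · apply le_sq _ hsh
    rw [h]
    linarith

theorem enc_inv {k kl kh l h : ℝ} (hkl : 0 < kl) (h1 : kl ≤ k) (h2 : k ≤ kh) (hl : 0 ≤ l)
    (hh : 0 ≤ h) (g1 : l * kh ≤ 1) (g2 : 1 ≤ h * kl) : l ≤ 1 / k ∧ 1 / k ≤ h := by
  have hk : 0 < k := hkl.trans_le h1
  constructor
  · rw [le_div_iff₀ hk]
    exact (mul_le_mul_of_nonneg_left h2 hl).trans g1
  · rw [div_le_iff₀ hk]
    exact g2.trans (mul_le_mul_of_nonneg_left h1 hh)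

theorem enc_A {k kl kh l h : ℝ} (hk2 : k < 2) (hkl : 0 ≤ kl) (h1 : kl ≤ k) (h2 : k ≤ kh)
    (hl : 0 ≤ l) (hh : 0 ≤ h) (g1 : l * (4 - kl ^ 2) ≤ 1) (g2 : 1 ≤ h * (4 - kh ^ 2)) :
    l ≤ 1 / (4 - k ^ 2) ∧ 1 / (4 - k ^ 2) ≤ h := by
  have hk0 := hkl.trans h1
  have hk : 0 < 4 - k ^ 2 := by nlinarith
  have e1 : k ^ 2 ≤ kh ^ 2 := by gcongr
  have e2 : kl ^ 2 ≤ k ^ 2 := by gcongr
  constructor
  · rw [le_div_iff₀ hk]
    exact (mul_le_mul_of_nonneg_left (by linarith) hl).trans g1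
  · rw [div_le_iff₀ hk]
    exact g2.trans (mul_le_mul_of_nonneg_left (by linarith) hh)

theorem enc_H {k x kl kh l h : ℝ} (hk2 : k < 2) (hx0 : 0 ≤ x) (hx : x ^ 2 * (4 - k ^ 2) = 1)
    (hkl : 0 ≤ kl) (h1 : kl ≤ k) (h2 : k ≤ kh) (hh : 0 ≤ h)
    (g1 : l ^ 2 * (4 - kl ^ 2) ≤ 1) (g2 : 1 ≤ h ^ 2 * (4 - kh ^ 2)) : l ≤ x ∧ x ≤ h := by
  have hk0 := hkl.trans h1
  have hk : 0 < 4 - k ^ 2 := by nlinarith
  have e1 : k ^ 2 ≤ kh ^ 2 := by gcongr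
  have e2 : kl ^ 2 ≤ k ^ 2 := by gcongr
  constructor
  · apply le_sq _ hx0
    have : l ^ 2 * (4 - k ^ 2) ≤ x ^ 2 * (4 - k ^ 2) := by
      rw [hx]
      exact (mul_le_mul_of_nonneg_left (by linarith) (sq_nonneg l)).trans g1
    exact le_of_mul_le_mul_right this hk
  · apply le_sq _ hh
    have : x ^ 2 * (4 - k ^ 2) ≤ h ^ 2 * (4 - k ^ 2) := by
      rw [hx]
      exact g2.trans (mul_le_mul_of_nonneg_left (by linarith) (sq_nonneg h))
    exact le_of_mul_le_mul_right this hk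

theorem kp_sin {p : ℕ} (hp : 3 ≤ p) : Real.sin (Real.pi / p) ^ 2 = 1 - (Kp p / 2) ^ 2 ∧
    Kp p < 2 := by
  have h := Real.sin_sq_add_cos_sq (Real.pi / p)
  obtain ⟨hc, hs⟩ := cos_pos3 hp
  have hk : Kp p = 2 * Real.cos (Real.pi / p) := rfl
  refine ⟨by rw [hk]; linarith [h, sq (Real.cos (Real.pi / p))] , ?_⟩
  rw [hk]
  nlinarith [sq_nonneg (Real.cos (Real.pi / p) - 1)]

theorem tS_ok {p : ℕ} (h3 : 3 ≤ p) (h15 : p ≤ 15) :
    |2 ^ 48 * Real.sin (Real.pi / p) - tS p| ≤ ((4 : ℕ) : ℝ) := by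
  obtain ⟨h1, h2⟩ := tK_enc h3 h15
  obtain ⟨hc, hs⟩ := cos_pos3 h3
  have key : ((tS p : ℝ) - (4 : ℕ)) / 2 ^ 48 ≤ Real.sin (Real.pi / p) ∧
      Real.sin (Real.pi / p) ≤ ((tS p : ℝ) + (4 : ℕ)) / 2 ^ 48 := by
    refine enc_sin hs.le (kp_sin h3).1 ?_ h1 h2 ?_ ?_ ?_ <;>
    interval_cases p <;> simp only [tK, tS] <;> norm_num
  exact abs_enc key.1 key.2

theorem tI_ok {p : ℕ} (h3 : 3 ≤ p) (h15 : p ≤ 15) :
    |2 ^ 48 * (1 / Kp p) - tI p| ≤ ((2 : ℕ) : ℝ) := by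
  obtain ⟨h1, h2⟩ := tK_enc h3 h15
  have key : ((tI p : ℝ) - (2 : ℕ)) / 2 ^ 48 ≤ 1 / Kp p ∧
      1 / Kp p ≤ ((tI p : ℝ) + (2 : ℕ)) / 2 ^ 48 := by
    refine enc_inv ?_ h1 h2 ?_ ?_ ?_ ?_ <;>
    interval_cases p <;> simp only [tK, tI] <;> norm_num
  exact abs_enc key.1 key.2

theorem tA_ok {p : ℕ} (h3 : 3 ≤ p) (h15 : p ≤ 15) :
    |2 ^ 48 * (1 / (4 - Kp p ^ 2)) - tA p| ≤ ((150 : ℕ) : ℝ) := by
  obtain ⟨h1, h2⟩ := tK_enc h3 h15
  have key : ((tA p : ℝ) - (150 : ℕ)) / 2 ^ 48 ≤ 1 / (4 - Kp p ^ 2) ∧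
      1 / (4 - Kp p ^ 2) ≤ ((tA p : ℝ) + (150 : ℕ)) / 2 ^ 48 := by
    refine enc_A (kp_sin h3).2 ?_ h1 h2 ?_ ?_ ?_ ?_ <;>
    interval_cases p <;> simp only [tK, tA] <;> norm_num
  exact abs_enc key.1 key.2

theorem tH_ok {p : ℕ} (h3 : 3 ≤ p) (h15 : p ≤ 15) :
    |2 ^ 48 * (1 / (2 * Real.sin (Real.pi / p))) - tH p| ≤ ((36 : ℕ) : ℝ) := by
  obtain ⟨h1, h2⟩ := tK_enc h3 h15
  obtain ⟨hc, hs⟩ := cos_pos3 h3
  have hx : (1 / (2 * Real.sin (Real.pi / p))) ^ 2 * (4 - Kp p ^ 2) = 1 := by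
    have e : 4 - Kp p ^ 2 = 4 * Real.sin (Real.pi / p) ^ 2 := by
      rw [(kp_sin h3).1]
      ring
    rw [e]
    field_simp
    norm_num
  have key : ((tH p : ℝ) - (36 : ℕ)) / 2 ^ 48 ≤ 1 / (2 * Real.sin (Real.pi / p)) ∧
      1 / (2 * Real.sin (Real.pi / p)) ≤ ((tH p : ℝ) + (36 : ℕ)) / 2 ^ 48 := by
    refine enc_H (kp_sin h3).2 (by positivity) hx ?_ h1 h2 ?_ ?_ ?_ <;>
    interval_cases p <;> simp only [tK, tH] <;> norm_num
  exact abs_enc key.1 key.2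

end Pool.Agent.Helper91.BX
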