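import Pool.Agent.Helper91.BX.T

/-!
Row M5 (MP_c75db0, star frame), part 7: the end of the window on a line `-n / 2 ^ 48`, as a kernel
test of depth 2; cover of a class by boxes; a box from its pieces.
-/

set_option autoImplicit false
set_option exponentiation.threshold 4000
noncomputable section
namespace Pool.Agent.Helper91.BX

open Pool.Agent.Helper90.C75 (Vt avg wtT bt avg_const avg_T_succ Wts Mod)
open Pool.Agent.Helper90.KMT
open Pool.Agent.Helper90.KMO (UU UU_pos cz zv zv_p andB_t)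
open Pool.Agent.Helper86.C75 (Z)
open Pool.Agent.Helper86.CX (Cx andB)
open Pool.Agent.Helper86.CT (N3 DF Alg Mo mk cst addM subM mulM invM invOK conjM A0 A1 A2 A3 A4)
open Pool.Agent.Helper6.MONO (Kp xA xA_eq xA_gt kap_mono)
open Pool.Agent.Helper6.MONO.W2 (Win cW)
open Pool.Agent.Helper62.TVM (cstC TOK_cstC tc)

/-! ### a scalar test at all leaves -/

/-- test of the real part at all leaves -/
structure Ps (α : Type) where
  t : Nat → α → Bool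
def ps0 (r : Nat) (c : Cx) : Bool :=
  Z.rec (motive := fun _ => Bool) (fun n => Nat.ble r n) (fun n => andB (Nat.beq n (nat_lit 0)) (Nat.beq r (nat_lit 0))) c.re
def Ps0 : Ps Cx := ⟨ps0⟩
def nxP {α : Type} (T : Ps α) : Ps (N3 α) :=
  ⟨fun r x => N3.rec (motive := fun _ => Bool) (fun x => T.t r x)
    (fun a c b => andB (T.t r a) (andB (T.t r c) (T.t r b))) x⟩
def Ps1 : Ps (N3 Cx) := nxP Ps0
def Ps2 : Ps (N3 (N3 Cx)) := nxP Ps1

/-- the law -/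
def PsL {α : Type} (D : ℕ) (lf : α → Vt D → ℂ) (T : Ps α) : Prop :=
  ∀ (r : ℕ) (x : α), T.t r x = true → ∀ v, (r : ℝ) ≤ (lf x v).re

theorem PsL0 : PsL 0 lf0 Ps0 := by
  intro r x h v
  obtain ⟨a, b⟩ := x
  show (r : ℝ) ≤ ((zv a : ℤ) : ℝ)
  cases a with
  | p n =>
    have h' : r ≤ n := Nat.le_of_ble_eq_true h
    rw [zv_p]
    exact_mod_cast h'
  | m n =>
    obtain ⟨h1, h2⟩ := andB_t h
    have h1' : n = 0 := Nat.eq_of_beq_eq_true h1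
    have h2' : r = 0 := Nat.eq_of_beq_eq_true h2
    rw [h1', h2']
    norm_num [zv]

theorem PsL.nx {α : Type} {D : ℕ} {lf : α → Vt D → ℂ} {T : Ps α} (h : PsL D lf T) :
    PsL (D + 1) (nlf lf) (nxP T) := by
  intro r x hx v
  obtain ⟨v, i⟩ := v
  cases x with
  | k x => exact h r x hx v
  | q a c b =>
    obtain ⟨h1, h2⟩ := andB_t hx
    obtain ⟨h2, h3⟩ := andB_t h2
    fin_cases i
    · exact h r a h1 v
    · exact h r c h2 v
    · exact h r b h3 v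

theorem PsL2 : PsL 2 (nlf (nlf lf0)) Ps2 := PsL0.nx.nx

theorem avg_re_ge {V : Type*} [Fintype V] {w : V → ℝ} (hw : Wts w) {F : V → ℂ} {r : ℝ}
    (h : ∀ v, r ≤ (F v).re) : r ≤ (avg w F).re := by
  unfold avg
  rw [Complex.re_sum]
  have e : r = ∑ v, w v * r := by rw [← Finset.sum_mul, hw.sum, one_mul]
  rw [e]
  refine Finset.sum_le_sum fun v _ => ?_
  rw [Complex.re_ofReal_mul]
  exact mul_le_mul_of_nonneg_left (h v) (hw.nonneg v)

/-- A NONNEGATIVE FUNCTION -/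
theorem TOK.nn {α : Type} {D : ℕ} {lf : α → Vt D → ℂ} {t : ℕ → ℝ} (hP : PT D t) {T : Ps α}
    (hT : PsL D lf T) {x : ℝ} {M : Mo α} (h : TOK D lf t (x : ℂ) M) (ht : T.t M.r M.v = true) :
    0 ≤ x := by
  have h1 := avg_re_ge hP.w (hT _ _ ht)
  have h2 : ‖(UU : ℂ) * x - avg (wtT D t) (lf M.v)‖ ≤ M.r := h.mod
  have h3 := (Complex.abs_re_le_norm _).trans h2
  rw [Complex.sub_re, Complex.re_ofReal_mul, Complex.ofReal_re, abs_le] at h3
  have h4 : 0 ≤ UU * x := by linarith [h3.1]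
  have hU := UU_pos
  by_contra h5
  push Not at h5
  nlinarith

/-! ### the end of the window -/

def qx2 (j : ℕ) (a c b : Cx) : N3 (N3 Cx) :=
  Nat.rec (motive := fun _ => N3 (N3 Cx)) (N3.k (N3.q a c b))
    (fun _ _ => N3.q (N3.k a) (N3.k c) (N3.k b)) j

theorem CD2 : ∀ j < 2, CD 2 j (nlf (nlf lf0)) (qx2 j) := by
  intro j hj
  interval_cases j
  · exact (CD.top A0_ok).nx
  · exact CD.top A1_ok

/-- `wl (4 - kp²) + 4 - b - kp² a + n kp 2ab/(a+b)` -/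
def enM3 {α : Type} (A : Alg α) (n wl : Nat) (k P a b G : Mo α) : Mo α :=
  addM A (addM A (mulM A (cst A wl (nat_lit 0)) (subM A (foM A) P))
    (subM A (subM A (foM A) b) (mulM A P a))) (mulM A (mulM A (cst A n (nat_lit 0)) k) G)
def enM2 {α : Type} (A : Alg α) (n wl : Nat) (k a b : Mo α) : Mo α :=
  enM3 A n wl k (mulM A k k) a b (mulM A (mulM A (addM A a a) b) (invM A (addM A a b)))
def enT2 {α : Type} (T : Ps α) (F : Mo α) : Bool := T.t F.r F.v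
def enT1 {α : Type} (A : Alg α) (T : Ps α) (n wl : Nat) (k a b : Mo α) : Bool :=
  andB (invOK A (addM A a b)) (enT2 T (enM2 A n wl k a b))
def enT0 {α : Type} (A : Alg α) (T : Ps α) (n wl : Nat) (k a s : Mo α) : Bool :=
  enT1 A T n wl k a (addM A a (mulM A (subM A (foM A) a) s))
/-- THE TEST: all `q`, `r` of the box satisfy `- n / 2 ^ 48 ≤ xw p q r (wl / 2 ^ 48)` -/
def enT (p A0 A1 ra S0 S1 rs n wl : Nat) : Bool :=
  enT0 Pool.Agent.Helper86.CT.A2 Ps2 n wl (cst Pool.Agent.Helper86.CT.A2 (tK p) (nat_lit 1))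
    (afM Pool.Agent.Helper86.CT.A2 (qx2 (nat_lit 0)) A0 A1 ra)
    (afM Pool.Agent.Helper86.CT.A2 (qx2 (nat_lit 1)) S0 S1 rs)

theorem en_ok {p q r : ℕ} (hp : 3 ≤ p) (hp15 : p ≤ 15) (hq : 3 ≤ q) (hr : 3 ≤ r)
    {A0 A1 ra S0 S1 rs n wl : ℕ} (ha : Rg (Kp q ^ 2) A0 A1 ra) (hs : Rg (sr q r) S0 S1 rs)
    (h : enT p A0 A1 ra S0 S1 rs n wl = true) :
    -((n : ℝ) / 2 ^ 48) ≤ xw p q r (wl / 2 ^ 48) := by
  obtain ⟨s0, a0, a1, a2⟩ := ha.par
  obtain ⟨s1, b0, b1, b2⟩ := hs.par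
  set t : ℕ → ℝ := fun j => if j = 0 then s0 else s1 with ht
  have hP : PT 2 t := by
    refine ⟨fun j _ => ?_, fun j _ => ?_, by norm_num⟩
    · show 0 ≤ (if j = 0 then s0 else s1)
      split_ifs <;> assumption
    · show (if j = 0 then s0 else s1) ≤ 1
      split_ifs <;> assumption
  have hA := A2_ok
  have ta : TOK 2 (nlf (nlf lf0)) t ((Kp q ^ 2 : ℝ) : ℂ)
      (afM Pool.Agent.Helper86.CT.A2 (qx2 (nat_lit 0)) A0 A1 ra) :=
    TOK_af hA hP (CD2 0 (by norm_num)) (by norm_num) a2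
  have ts : TOK 2 (nlf (nlf lf0)) t ((sr q r : ℝ) : ℂ)
      (afM Pool.Agent.Helper86.CT.A2 (qx2 (nat_lit 1)) S0 S1 rs) :=
    TOK_af hA hP (CD2 1 (by norm_num)) (by norm_num) b2
  have tk : TOK 2 (nlf (nlf lf0)) t ((Kp p : ℝ) : ℂ)
      (cst Pool.Agent.Helper86.CT.A2 (tK p) (nat_lit 1)) := TOK_rc hA hP (tK_ok hp hp15)
  obtain ⟨q0, q2, q4⟩ := Kp_b hq
  obtain ⟨r0, r2, r4⟩ := Kp_b hr
  obtain ⟨p0, p2, p4⟩ := Kp_b hp
  have eb : Kp q ^ 2 + (4 - Kp q ^ 2) * sr q r = Kp r ^ 2 := by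
    unfold sr
    rw [mul_div_cancel₀ _ q4.ne']
    ring
  have tb : TOK 2 (nlf (nlf lf0)) t ((Kp r ^ 2 : ℝ) : ℂ) _ :=
    tc (ta.add hA (((TOK_four hA hP).sub hA ta).mul hA hP ts)) (by
      rw [← eb]
      push_cast
      ring)
  obtain ⟨g1, g2⟩ := andB_t (show enT1 Pool.Agent.Helper86.CT.A2 Ps2 n wl _ _ _ = true from h)
  have ti := TOK.inv hA hP (ta.add hA tb) g1
  have tw : TOK 2 (nlf (nlf lf0)) t (((wl : ℝ) / 2 ^ 48 : ℝ) : ℂ)
      (cst Pool.Agent.Helper86.CT.A2 wl (nat_lit 0)) := by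
    refine TOK_rc hA hP ?_
    rw [mul_div_cancel₀ _ (by positivity), sub_self, abs_zero]
    exact Nat.cast_nonneg _
  have tn : TOK 2 (nlf (nlf lf0)) t (((n : ℝ) / 2 ^ 48 : ℝ) : ℂ)
      (cst Pool.Agent.Helper86.CT.A2 n (nat_lit 0)) := by
    refine TOK_rc hA hP ?_
    rw [mul_div_cancel₀ _ (by positivity), sub_self, abs_zero]
    exact Nat.cast_nonneg _
  have tG := ((ta.add hA ta).mul hA hP tb).mul hA hP ti.1
  have tP := tk.mul hA hP tk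
  have tF := ((tw.mul hA hP ((TOK_four hA hP).sub hA tP)).add hA
    (((TOK_four hA hP).sub hA tb).sub hA (tP.mul hA hP ta))).add hA
    ((tn.mul hA hP tk).mul hA hP tG)
  have tF' : TOK 2 (nlf (nlf lf0)) t ((((wl : ℝ) / 2 ^ 48) * (4 - Kp p * Kp p) +
      (4 - Kp r ^ 2 - Kp p * Kp p * Kp q ^ 2) + (n : ℝ) / 2 ^ 48 * Kp p *
      ((Kp q ^ 2 + Kp q ^ 2) * Kp r ^ 2 * (Kp q ^ 2 + Kp r ^ 2)⁻¹) : ℝ) : ℂ) _ := tc tF (by
    push_cast
    rfl)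
  have key := TOK.nn hP PsL2 tF' g2
  -- the mean
  have hm : (Kp q ^ 2 + Kp q ^ 2) * Kp r ^ 2 * (Kp q ^ 2 + Kp r ^ 2)⁻¹ ≤ Kp q * Kp r := by
    rw [← div_eq_mul_inv, div_le_iff₀ (by positivity)]
    nlinarith [mul_pos q0 r0, sq_nonneg (Kp q - Kp r), mul_nonneg (mul_pos q0 r0).le
      (sq_nonneg (Kp q - Kp r))]
  have hgw := gw_pos hp hq hr
  unfold xw
  rw [← sub_le_iff_le_add', le_div_iff₀ hgw]
  have e : (-((n : ℝ) / 2 ^ 48) - xA p q r) * gw p q r =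
      (-((n : ℝ) / 2 ^ 48) * (Kp p * Kp q * Kp r) - (4 - Kp r ^ 2 - Kp p ^ 2 * Kp q ^ 2)) /
        (4 - Kp p ^ 2) := by
    unfold gw
    rw [xA_eq]
    have := p4.ne'
    have := p0.ne'
    have := q0.ne'
    have := r0.ne'
    field_simp
  rw [e, div_le_iff₀ p4]
  have hk : (n : ℝ) / 2 ^ 48 * Kp p * ((Kp q ^ 2 + Kp q ^ 2) * Kp r ^ 2 *
      (Kp q ^ 2 + Kp r ^ 2)⁻¹) ≤ (n : ℝ) / 2 ^ 48 * Kp p * (Kp q * Kp r) :=
    mul_le_mul_of_nonneg_left hm (by positivity)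
  nlinarith [hk, key]

/-! ### cover -/

/-- an interval of a chain of break points -/
theorem Chn.pick {P : ℕ → ℕ → Prop} {κ : ℝ} : ∀ {l : List ℕ} {w : ℕ}, Chn P w l → l ≠ [] →
    (w : ℝ) ≤ 2 ^ 48 * κ → 2 ^ 48 * κ ≤ (l.getLastD w : ℕ) → ∃ a b, P a b ∧ Bd κ a b
  | [], _, _, h, _, _ => absurd rfl h
  | [w'], w, h, _, h1, h2 => ⟨w, w', h.1, h1, by simpa using h2⟩
  | w' :: w'' :: l, w, h, _, h1, h2 => by
    rcases le_total (2 ^ 48 * κ) (w' : ℝ) with h3 | h3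
    · exact ⟨w, w', h.1, h1, h3⟩
    · exact Chn.pick h.2 (List.cons_ne_nil _ _) h3 (by
        rw [List.getLastD_cons] at h2; exact h2)

/-- the statement of a box: a rectangle of `κ_q²` and of the ratio -/
def BoxP (R : ℕ → ℕ → Prop) (p A0 A1 ra S0 S1 rs : ℕ) : Prop := ∀ q r : ℕ, p ≤ q → q ≤ r →
  Rg (Kp q ^ 2) A0 A1 ra → Rg (sr q r) S0 S1 rs → R q r

/-- a column of boxes: ratios from `0` to `1` -/
def ColP (R : ℕ → ℕ → Prop) (p A0 A1 : ℕ) : Prop := ∃ l : List ℕ, l ≠ [] ∧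
  Chn (fun s s' => BoxP R p A0 A1 0 s s' 0) 0 l ∧ 281474976710656 ≤ l.getLastD 0

/-- **BOTH LABELS TAILS**: from `N` -/
theorem cover_TT {R : ℕ → ℕ → Prop} {p N : ℕ} (hp : 3 ≤ p) (h3 : 3 ≤ N) (h16 : N ≤ 16)
    (hpN : p ≤ N) {A0 : ℕ} (hA0 : A0 ≤ tQ N - 6) {l : List ℕ} (hl : l ≠ [])
    (h : Chn (fun a a' => ColP R p a a') A0 l) (hend : 1125899906842624 ≤ l.getLastD A0) :
    ∀ q r : ℕ, N ≤ q → q ≤ r → R q r := by
  intro q r hq hqr
  have b1 := Bd_tail h3 h16 hq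
  have hA0' : (A0 : ℝ) ≤ 2 ^ 48 * Kp q ^ 2 := le_trans (by exact_mod_cast hA0) b1.1
  have hend' : 2 ^ 48 * Kp q ^ 2 ≤ ((l.getLastD A0 : ℕ) : ℝ) :=
    b1.2.trans (by exact_mod_cast hend)
  obtain ⟨a, a', ⟨m, hm, hc, hme⟩, hb⟩ := Chn.pick h hl hA0' hend'
  have c1 := Bd_sr01 (h3.trans hq) hqr
  obtain ⟨s, s', hP, hb'⟩ := Chn.pick hc hm c1.1 (c1.2.trans (by exact_mod_cast hme))
  exact hP q r (hpN.trans hq) hqr hb.rg hb'.rg

/-- **`q` EXACT, `r` A TAIL** from `N` -/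
theorem cover_ET {R : ℕ → ℕ → Prop} {p q N : ℕ} (hp : 3 ≤ p) (hpq : p ≤ q) (h16 : q ≤ 16)
    (hN : 3 ≤ N) (hN16 : N ≤ 16) (hqN : q ≤ N) {S0 : ℕ}
    (hS0 : sLo (tQ q + 6) (tQ N - 6) S0 = true) {l : List ℕ} (hl : l ≠ [])
    (h : Chn (fun s s' => BoxP R p (tQ q) (tQ q) 6 s s' 0) S0 l)
    (hend : 281474976710656 ≤ l.getLastD S0) : ∀ r : ℕ, N ≤ r → R q r := by
  intro r hr
  have hq3 : 3 ≤ q := hp.trans hpq
  have b1 := Bd_ex hq3 h16
  have b2 := Bd_tail hN hN16 hr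
  have b3 := Bd_sr01 hq3 (hqN.trans hr)
  have ht : tQ q + 6 < 1125899906842624 := by
    interval_cases q <;> simp only [tQ] <;> norm_num
  have ht2 : tQ N - 6 ≤ 1125899906842624 := by
    interval_cases N <;> simp only [tQ] <;> norm_num
  have c1 := sr_lo hq3 b1.2 b2.1 ht ht2 hS0
  obtain ⟨s, s', hP, hb'⟩ := Chn.pick h hl c1 (b3.2.trans (by exact_mod_cast hend))
  exact hP q r hpq (hqN.trans hr) (Rg_ex hq3 h16) hb'.rg

/-- **BOTH EXACT** -/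
theorem cover_EE {R : ℕ → ℕ → Prop} {p q r : ℕ} (hp : 3 ≤ p) (hpq : p ≤ q) (hqr : q ≤ r)
    (hr16 : r ≤ 16) {S0 S1 : ℕ} (h : BoxP R p (tQ q) (tQ q) 6 S0 S1 0)
    (g1 : sLo (tQ q + 6) (tQ r - 6) S0 = true) (g2 : sHi (tQ q - 6) (tQ r + 6) S1 = true)
    (h4 : S1 ≤ 281474976710656) : R q r := by
  have hq3 : 3 ≤ q := hp.trans hpq
  have hr3 : 3 ≤ r := hq3.trans hqr
  have hq16 : q ≤ 16 := hqr.trans hr16
  have b1 := Bd_ex hq3 hq16
  have b2 := Bd_ex hr3 hr16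
  have ht : tQ q + 6 < 1125899906842624 := by
    interval_cases q <;> simp only [tQ] <;> norm_num
  have ht' : tQ q - 6 ≤ 1125899906842624 := by
    interval_cases q <;> simp only [tQ] <;> norm_num
  have ht2 : tQ r - 6 ≤ 1125899906842624 := by
    interval_cases r <;> simp only [tQ] <;> norm_num
  exact h q r hpq hqr (Rg_ex hq3 hq16) (Bd_sr hq3 b1 b2 ht ht2 ht' h4 g1 g2).rg

/-! ### a box from its pieces -/

/-- the conclusion: window from a threshold `x0` on -/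
def WinT (Q : ℕ → ℕ → ℝ → Prop) (p : ℕ) (m : ℝ) (q r : ℕ) : Prop := ∀ x0 : ℝ, xA p q r ≤ x0 →
  x0 ≤ m → (∀ x, x0 < x → x < m → Q q r x) → Win p q r x0 m

/-- the statement of a piece for a box -/
def PcB (Q : ℕ → ℕ → ℝ → Prop) (p : ℕ) (m : ℝ) (A0 A1 ra S0 S1 rs w w' : ℕ) : Prop :=
  ∀ q r : ℕ, p ≤ q → q ≤ r → Rg (Kp q ^ 2) A0 A1 ra → Rg (sr q r) S0 S1 rs →
    PcQ (Q q r) p q r m w w'

/-- **A BOX FROM ITS PIECES** -/
theorem box_of_pieces {Q : ℕ → ℕ → ℝ → Prop} {p : ℕ} (hp : 3 ≤ p) (hp15 : p ≤ 15)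
    {A0 A1 ra S0 S1 rs n : ℕ} {m : ℝ} (hm : m < 2) (hmn : m ≤ -((n : ℝ) / 2 ^ 48)) {l : List ℕ}
    (h : Chn (PcB Q p m A0 A1 ra S0 S1 rs) 0 l)
    (hend : enT p A0 A1 ra S0 S1 rs n (l.getLastD 0) = true) :
    BoxP (WinT Q p m) p A0 A1 ra S0 S1 rs := by
  intro q r hpq hqr ha hs x0 hx hxm hQ
  have hq : 3 ≤ q := hp.trans hpq
  have hr := hq.trans hqr
  have mono : ∀ (l : List ℕ) (w : ℕ), Chn (PcB Q p m A0 A1 ra S0 S1 rs) w l →
      Chn (PcQ (Q q r) p q r m) w l := by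
    intro l
    induction l with
    | nil => exact fun _ _ => trivial
    | cons w' l ih => exact fun w h => ⟨h.1 q r hpq hqr ha hs, ih w' h.2⟩
  refine win_allQ (w0 := 0) hp hq hqr hm hx hxm hQ ?_ (mono l 0 h) (hmn.trans
    (en_ok hp hp15 hq hr ha hs hend))
  rw [Nat.cast_zero, zero_div, xw_zero]
  exact hx

end Pool.Agent.Helper91.BX
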