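import Pool.Agent.Helper91.BX.W
import Pool.Agent.Helper51.FR.Frame

/-!
Row M5 (MP_c75db0, star frame), part 5: the models of the box in the form of row M2.
-/

set_option autoImplicit false
set_option exponentiation.threshold 4000
noncomputable section
namespace Pool.Agent.Helper91.BX

open Pool.Agent.Helper90.C75 (Vt)
open Pool.Agent.Helper90.KMT
open Pool.Agent.Helper86.CX (Cx)
open Pool.Agent.Helper86.CT (Alg Mo)
open Pool.Agent.Helper6.MONO (Kp xA)
open Pool.Agent.Helper6.MONO.W2 (phi ep cW)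

variable {α : Type} {D : ℕ} {lf : α → Vt D → ℂ} {A : Alg α} {t : ℕ → ℝ}
  {qd : ℕ → Cx → Cx → Cx → α}

/-- the record of row M2 -/
def frR (x : BxM α) : Pool.Agent.Helper51.FR.BxM α := ⟨x.a, x.b, x.W, x.ki, x.h, x.e⟩

/-- THE MODELS FOR THE FRAME -/
theorem BxT.fr {p q r : ℕ} {x : ℝ} {M : BxM α} (h : BxT D lf t p q r x M) :
    Pool.Agent.Helper51.FR.BxOK D lf t p (cW p q r x) (Kp q ^ 2) (Kp r ^ 2) (frR M) :=
  ⟨h.a, h.b, h.W, h.ki, h.h, h.e⟩

end Pool.Agent.Helper91.BX
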