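import Pool.Agent.Helper91.BX.C
import Pool.Agent.Helper62.C75.TVM

/-!
Row M5 (MP_c75db0, star frame), part 2: affine models in one direction of the box, the models of
the constants of the order `p`, of `κ_q²`, `κ_r²` and of `W`.
-/

set_option autoImplicit false
set_option exponentiation.threshold 4000
noncomputable section
namespace Pool.Agent.Helper91.BX

open Pool.Agent.Helper90.C75 (Vt avg wtT bt avg_const avg_T_succ Wts Mod)
open Pool.Agent.Helper90.KMT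
open Pool.Agent.Helper90.KMO (UU UU_pos cz zv zv_p)
open Pool.Agent.Helper86.C75 (Z)
open Pool.Agent.Helper86.CX (Cx)
open Pool.Agent.Helper86.CT (N3 Alg Mo mk cst addM subM mulM conjM A0 A1 A2 A3 A4)
open Pool.Agent.Helper6.MONO (Kp)
open Pool.Agent.Helper62.TVM (cstC TOK_cstC tc)

/-! ### kernel side: directions -/

/-- the tree of depth 3 with the controls `a c b` in the direction `j` -/
def qx3 (j : ℕ) (a c b : Cx) : N3 (N3 (N3 Cx)) :=
  Nat.rec (motive := fun _ => N3 (N3 (N3 Cx))) (N3.k (N3.k (N3.q a c b)))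
    (fun i _ => Nat.rec (motive := fun _ => N3 (N3 (N3 Cx)))
      (N3.k (N3.q (N3.k a) (N3.k c) (N3.k b)))
      (fun _ _ => N3.q (N3.k (N3.k a)) (N3.k (N3.k c)) (N3.k (N3.k b))) i) j

/-- the tree of depth 4 with the controls `a c b` in the direction `j` -/
def qx4 (j : ℕ) (a c b : Cx) : N3 (N3 (N3 (N3 Cx))) :=
  Nat.rec (motive := fun _ => N3 (N3 (N3 (N3 Cx)))) (N3.k (N3.k (N3.k (N3.q a c b))))
    (fun i _ => Nat.rec (motive := fun _ => N3 (N3 (N3 (N3 Cx))))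
      (N3.k (N3.k (N3.q (N3.k a) (N3.k c) (N3.k b))))
      (fun i _ => Nat.rec (motive := fun _ => N3 (N3 (N3 (N3 Cx))))
        (N3.k (N3.q (N3.k (N3.k a)) (N3.k (N3.k c)) (N3.k (N3.k b))))
        (fun _ _ => N3.q (N3.k (N3.k (N3.k a))) (N3.k (N3.k (N3.k c))) (N3.k (N3.k (N3.k b)))) i) i) j

/-- the affine function with the ends `a`, `b`; radius `r + 1` -/
def afM {α : Type} (A : Alg α) (q : Cx → Cx → Cx → α) (a b r : Nat) : Mo α :=
  mk A (q ⟨Z.p a, Z.p (nat_lit 0)⟩ ⟨Z.p (Nat.div (Nat.add a b) (nat_lit 2)), Z.p (nat_lit 0)⟩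
    ⟨Z.p b, Z.p (nat_lit 0)⟩) (Nat.add r (nat_lit 1))

/-! ### kernel side: the box -/

/-- THE BOX: `κ_q²` from `A0` to `A1` (radius `ra`), the ratio
`(κ_r² - κ_q²)/(4 - κ_q²)` from `S0` to `S1` (radius `rs`), `W - W_A` from `W0` to `W1`;
units `2 ^ (-48)` -/
structure Bx where
  A0 : Nat
  A1 : Nat
  ra : Nat
  S0 : Nat
  S1 : Nat
  rs : Nat
  W0 : Nat
  W1 : Nat

/-- THE MODELS: `Kp p`, `1 / Kp p`, `cos φ`, `sin φ`, `1 / (2 sin φ)`, `e ^ (i φ)`, `κ_q²`,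
`κ_r²`, `W` -/
structure BxM (α : Type) where
  kp : Mo α
  ki : Mo α
  c : Mo α
  s : Mo α
  h : Mo α
  e : Mo α
  a : Mo α
  b : Mo α
  W : Mo α

/-- `4` -/
def foM {α : Type} (A : Alg α) : Mo α := cst A (nat_lit 1125899906842624) (nat_lit 0)

def bxM3 {α : Type} (A : Alg α) (p : ℕ) (w a f m : Mo α) : BxM α :=
  ⟨cst A (tK p) (nat_lit 1), cst A (tI p) (nat_lit 2), cst A (tC p) (nat_lit 1),
    cst A (tS p) (nat_lit 4), cst A (tH p) (nat_lit 36), cstC A ⟨Z.p (tC p), Z.p (tS p)⟩ (nat_lit 5),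
    a, addM A a m, addM A (addM A a (mulM A (cst A (tA p) (nat_lit 150)) (addM A f m))) w⟩
def bxM2 {α : Type} (A : Alg α) (p : ℕ) (w s a f : Mo α) : BxM α := bxM3 A p w a f (mulM A f s)
def bxM1 {α : Type} (A : Alg α) (p : ℕ) (w s a : Mo α) : BxM α :=
  bxM2 A p w s a (subM A (foM A) a)
/-- the models of the box `B` for the order `p` -/
def bxM {α : Type} (A : Alg α) (qd : ℕ → Cx → Cx → Cx → α) (p : ℕ) (B : Bx) : BxM α :=
  bxM1 A p (afM A (qd (nat_lit 2)) B.W0 B.W1 (nat_lit 0)) (afM A (qd (nat_lit 1)) B.S0 B.S1 B.rs)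
    (afM A (qd (nat_lit 0)) B.A0 B.A1 B.ra)

/-! ### the laws of a direction -/

variable {α : Type} {D : ℕ} {lf : α → Vt D → ℂ} {A : Alg α} {t : ℕ → ℝ}

/-- a tree which varies only in the direction `j` -/
structure CD {α : Type} (D j : ℕ) (lf : α → Vt D → ℂ) (q : Cx → Cx → Cx → α) : Prop where
  av : ∀ (a c b : Cx) (t : ℕ → ℝ), PT D t →
    avg (wtT D t) (lf (q a c b)) = (((1 - t j) ^ 2 : ℝ) : ℂ) * cz a +
      ((2 * t j * (1 - t j) : ℝ) : ℂ) * cz c + (((t j) ^ 2 : ℝ) : ℂ) * cz b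

theorem avg_bt' (s : ℝ) (f : Fin 3 → ℂ) : avg (bt s) f =
    (((1 - s) ^ 2 : ℝ) : ℂ) * f 0 + ((2 * s * (1 - s) : ℝ) : ℂ) * f 1 + ((s ^ 2 : ℝ) : ℂ) * f 2 := by
  unfold avg
  rw [Fin.sum_univ_three]
  rfl

theorem PT.pr (h : PT (D + 1) t) : PT D t :=
  ⟨fun j hj => h.h0 j (by omega), fun j hj => h.h1 j (by omega), by have := h.hD; omega⟩

theorem CD.top (hA : AOK D lf A) :
    CD (D + 1) D (nlf lf) (fun a c b => N3.q (A.cs a) (A.cs c) (A.cs b)) := by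
  refine ⟨?_⟩
  intro a c b t ht
  have key : ∀ x : Cx, avg (wtT D t) (fun v : Vt D => lf (A.cs x) v) = cz x := by
    intro x
    have e : (fun v : Vt D => lf (A.cs x) v) = fun _ => cz x := funext fun v => hA.cst x v
    rw [e, avg_const (PT.pr ht).w]
  rw [avg_T_succ, avg_bt']
  show _ * avg (wtT D t) (fun v => lf (A.cs a) v) + _ * avg (wtT D t) (fun v => lf (A.cs c) v) +
    _ * avg (wtT D t) (fun v => lf (A.cs b) v) = _
  rw [key, key, key]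

theorem CD.nx {j : ℕ} {q : Cx → Cx → Cx → α} (h : CD D j lf q) :
    CD (D + 1) j (nlf lf) (fun a c b => N3.k (q a c b)) := by
  refine ⟨?_⟩
  intro a c b t ht
  have h0 := ht.h0 D (by omega)
  have h1 := ht.h1 D (by omega)
  rw [avg_T_succ]
  have e : (fun i : Fin 3 => avg (wtT D t) (fun v => nlf lf (N3.k (q a c b)) (v, i))) =
      fun _ => avg (wtT D t) (lf (q a c b)) := by
    funext i
    rfl
  rw [e, avg_const (Wts.bt h0 h1), h.av a c b t (PT.pr ht)]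






/-- DEPTH 3 -/
theorem CD3 : ∀ j < 3, CD 3 j (nlf (nlf (nlf lf0))) (qx3 j) := by
  intro j hj
  interval_cases j
  · exact ((CD.top A0_ok).nx).nx
  · exact (CD.top A1_ok).nx
  · exact CD.top A2_ok

/-- DEPTH 4 -/
theorem CD4 : ∀ j < 4, CD 4 j (nlf (nlf (nlf (nlf lf0)))) (qx4 j) := by
  intro j hj
  interval_cases j
  · exact (((CD.top A0_ok).nx).nx).nx
  · exact ((CD.top A1_ok).nx).nx
  · exact (CD.top A2_ok).nx
  · exact CD.top A3_ok

/-! ### real numbers -/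

theorem cz_pp (a b : ℕ) : cz ⟨Z.p a, Z.p b⟩ = ⟨(a : ℝ), (b : ℝ)⟩ := by
  unfold cz
  rw [zv_p, zv_p]
  simp

theorem UU_eq : UU = 2 ^ 48 := by
  unfold UU
  norm_num

/-- A REAL CONSTANT -/
theorem TOK_rc (hA : AOK D lf A) (hP : PT D t) {x : ℝ} {n r : ℕ} (h : |2 ^ 48 * x - n| ≤ (r : ℝ)) :
    TOK D lf t (x : ℂ) (cst A n r) := by
  refine TOK.cst hA hP n r ?_
  have e : (UU : ℂ) * x - n = ((2 ^ 48 * x - n : ℝ) : ℂ) := by
    rw [UU_eq]
    push_cast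
    rfl
  rw [e, Complex.norm_real, Real.norm_eq_abs]
  exact h

/-- AN AFFINE FUNCTION IN ONE DIRECTION -/
theorem TOK_af (hA : AOK D lf A) (hP : PT D t) {j : ℕ} {q : Cx → Cx → Cx → α}
    (hq : CD D j lf q) (hj : j < D) {κ : ℝ} {a b r : ℕ}
    (h : |2 ^ 48 * κ - ((1 - t j) * a + t j * b)| ≤ (r : ℝ)) : TOK D lf t (κ : ℂ) (afM A q a b r) := by
  refine ⟨vt_mk hA _ _, ?_⟩
  have h0 := hP.h0 j hj
  have h1 := hP.h1 j hj
  set c : ℕ := Nat.div (Nat.add a b) (nat_lit 2) with hc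
  show ‖(UU : ℂ) * κ - avg (wtT D t) (lf (q ⟨Z.p a, Z.p (nat_lit 0)⟩ ⟨Z.p c, Z.p (nat_lit 0)⟩
    ⟨Z.p b, Z.p (nat_lit 0)⟩))‖ ≤ ((Nat.add r (nat_lit 1) : ℕ) : ℝ)
  rw [hq.av _ _ _ t hP, cz_pp, cz_pp, cz_pp]
  have e : (UU : ℂ) * κ - ((((1 - t j) ^ 2 : ℝ) : ℂ) * ⟨(a : ℝ), ((nat_lit 0 : ℕ) : ℝ)⟩ +
      ((2 * t j * (1 - t j) : ℝ) : ℂ) * ⟨(c : ℝ), ((nat_lit 0 : ℕ) : ℝ)⟩ +
      (((t j) ^ 2 : ℝ) : ℂ) * ⟨(b : ℝ), ((nat_lit 0 : ℕ) : ℝ)⟩) =
      ((2 ^ 48 * κ - ((1 - t j) * a + t j * b) - 2 * t j * (1 - t j) * (c - (a + b) / 2) : ℝ) : ℂ) := by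
    rw [UU_eq]
    apply Complex.ext
    · simp only [Complex.sub_re, Complex.add_re, Complex.re_ofReal_mul, Complex.ofReal_re]
      ring
    · simp only [Complex.sub_im, Complex.add_im, Complex.im_ofReal_mul, Complex.ofReal_im]
      simp
  rw [e, Complex.norm_real, Real.norm_eq_abs]
  have hc1 : (c : ℝ) ≤ (a + b) / 2 ∧ (a + b) / 2 ≤ (c : ℝ) + 1 := by
    have e1 : c = (a + b) / 2 := rfl
    have h2 : 2 * c ≤ a + b := by omega
    have h3 : a + b ≤ 2 * c + 1 := by omega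
    have h2' : (2 : ℝ) * c ≤ a + b := by exact_mod_cast h2
    have h3' : (a : ℝ) + b ≤ 2 * c + 1 := by exact_mod_cast h3
    constructor <;> linarith
  have hn : ((Nat.add r (nat_lit 1) : ℕ) : ℝ) = r + 1 := by
    show ((r + 1 : ℕ) : ℝ) = _
    push_cast
    rfl
  rw [hn]
  have m0 : 0 ≤ t j * (1 - t j) := mul_nonneg h0 (by linarith)
  have m1 : t j * (1 - t j) ≤ 1 / 2 := by nlinarith [sq_nonneg (t j - 1 / 2)]
  rw [abs_le] at h ⊢
  have m2 := mul_nonneg m0 (by linarith [hc1.2] : 0 ≤ (c : ℝ) + 1 - (a + b) / 2)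
  have m3 := mul_nonneg m0 (by linarith [hc1.1] : 0 ≤ (a + b) / 2 - (c : ℝ))
  constructor
  · nlinarith [h.1]
  · nlinarith [h.2]

theorem TOK_four (hA : AOK D lf A) (hP : PT D t) : TOK D lf t 4 (foM A) :=
  TOK.cst' hA hP (by unfold UU; norm_num)

end Pool.Agent.Helper91.BX
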