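import Pool.Agent.Helper91.BX.M
import Pool.Agent.Helper12.CW.NF5

/-!
Row M5 (MP_c75db0, star frame), part 3: the models of the box at a point; the parameters of a point
of the box.
-/

set_option autoImplicit false
set_option exponentiation.threshold 4000
noncomputable section
namespace Pool.Agent.Helper91.BX

open Pool.Agent.Helper90.C75 (Vt avg wtT bt avg_const avg_T_succ Wts Mod)
open Pool.Agent.Helper90.KMT
open Pool.Agent.Helper90.KMO (UU UU_pos cz zv zv_p)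
open Pool.Agent.Helper86.C75 (Z)
open Pool.Agent.Helper86.CX (Cx)
open Pool.Agent.Helper86.CT (N3 Alg Mo mk cst addM subM mulM conjM A0 A1 A2 A3 A4)
open Pool.Agent.Helper6.MONO (Kp xA xA_eq xA_gt xA_le2)
open Pool.Agent.Helper6.MONO.W2 (phi ep cW cS_W kp_cos)
open Pool.Agent.Helper62.TVM (cstC TOK_cstC tc)

/-! ### the real functions -/

/-- `W` at `x_A` -/
def WA (p q r : ℕ) : ℝ := Kp q ^ 2 + (4 + Kp r ^ 2 - 2 * Kp q ^ 2) / (4 - Kp p ^ 2)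

/-- the ratio -/
def sr (q r : ℕ) : ℝ := (Kp r ^ 2 - Kp q ^ 2) / (4 - Kp q ^ 2)

/-- the speed `d W / d x` -/
def gw (p q r : ℕ) : ℝ := Kp p * Kp q * Kp r / (4 - Kp p ^ 2)

theorem Kp_b {p : ℕ} (hp : 3 ≤ p) : 0 < Kp p ∧ Kp p < 2 ∧ 0 < 4 - Kp p ^ 2 := by
  obtain ⟨hc, hs⟩ := cos_pos3 hp
  have hk : Kp p = 2 * Real.cos (Real.pi / p) := rfl
  have h0 : 0 < Kp p := by rw [hk]; linarith
  have h2 := (kp_sin hp).2
  exact ⟨h0, h2, by nlinarith⟩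

theorem gw_pos {p q r : ℕ} (hp : 3 ≤ p) (hq : 3 ≤ q) (hr : 3 ≤ r) : 0 < gw p q r := by
  obtain ⟨a, -, b⟩ := Kp_b hp
  have c := (Kp_b hq).1
  have d := (Kp_b hr).1
  unfold gw
  positivity

/-- `W` AS A FUNCTION OF `x` -/
theorem cW_eq {p q r : ℕ} (hp : 3 ≤ p) (hq : 3 ≤ q) (hr : 3 ≤ r) {x : ℝ} (h1 : -2 ≤ x)
    (h2 : x ≤ 2) : cW p q r x = WA p q r + (x - xA p q r) * gw p q r := by
  have h := cS_W hp hq hr h1 h2
  obtain ⟨kp0, kp2, k4⟩ := Kp_b hp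
  have q0 := (Kp_b hq).1
  have r0 := (Kp_b hr).1
  have hs := (kp_sin hp).1
  have e : Kp p = 2 * Real.cos (phi p) := rfl
  have hs' : Real.sin (phi p) ^ 2 = 1 - (Kp p / 2) ^ 2 := hs
  have ec : Real.cos (phi p) = Kp p / 2 := by rw [e]; ring
  rw [hs', ec] at h
  unfold WA gw
  rw [xA_eq]
  have hk := k4.ne'
  have hp' := kp0.ne'
  have hq' := q0.ne'
  have hr' := r0.ne'
  have h' : cW p q r x * (4 - Kp p ^ 2) = 2 * Kp q ^ 2 + 2 * Kp r ^ 2 + Kp p * Kp q * Kp r * x := by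
    linear_combination 2 * h
  rw [eq_comm, ← sub_eq_zero]
  have e2 : Kp q ^ 2 + (4 + Kp r ^ 2 - 2 * Kp q ^ 2) / (4 - Kp p ^ 2) +
      (x - (4 - Kp r ^ 2 - Kp p ^ 2 * Kp q ^ 2) / (Kp p * Kp q * Kp r)) *
        (Kp p * Kp q * Kp r / (4 - Kp p ^ 2)) - cW p q r x =
      (2 * Kp q ^ 2 + 2 * Kp r ^ 2 + Kp p * Kp q * Kp r * x - cW p q r x * (4 - Kp p ^ 2)) /
        (4 - Kp p ^ 2) := by
    field_simp
    ring
  rw [e2, h']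
  simp

theorem cpx_sub (U C S c s : ℝ) : (U : ℂ) * (⟨C, S⟩ : ℂ) - (⟨c, s⟩ : ℂ) =
    ((U * C - c : ℝ) : ℂ) + ((U * S - s : ℝ) : ℂ) * Complex.I := by
  apply Complex.ext
  · simp only [Complex.sub_re, Complex.add_re, Complex.re_ofReal_mul, Complex.ofReal_re,
      Complex.I_re, mul_zero, add_zero]
  · simp only [Complex.sub_im, Complex.add_im, Complex.im_ofReal_mul, Complex.ofReal_im,
      Complex.I_im, mul_one, zero_add]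

/-! ### the models -/

variable {α : Type} {D : ℕ} {lf : α → Vt D → ℂ} {A : Alg α} {t : ℕ → ℝ}
  {qd : ℕ → Cx → Cx → Cx → α}

/-- THE MODELS OF THE BOX AT A POINT -/
structure BxT (D : ℕ) (lf : α → Vt D → ℂ) (t : ℕ → ℝ) (p q r : ℕ) (x : ℝ) (M : BxM α) : Prop where
  kp : TOK D lf t ((Kp p : ℝ) : ℂ) M.kp
  ki : TOK D lf t ((1 / Kp p : ℝ) : ℂ) M.ki
  c : TOK D lf t ((Real.cos (phi p) : ℝ) : ℂ) M.c
  s : TOK D lf t ((Real.sin (phi p) : ℝ) : ℂ) M.s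
  h : TOK D lf t ((1 / (2 * Real.sin (phi p)) : ℝ) : ℂ) M.h
  e : TOK D lf t (ep (phi p)) M.e
  a : TOK D lf t ((Kp q ^ 2 : ℝ) : ℂ) M.a
  b : TOK D lf t ((Kp r ^ 2 : ℝ) : ℂ) M.b
  W : TOK D lf t ((cW p q r x : ℝ) : ℂ) M.W

/-- THE PARAMETERS OF THE POINT -/
structure Par (p q r : ℕ) (B : Bx) (x : ℝ) (t : ℕ → ℝ) : Prop where
  a : |2 ^ 48 * Kp q ^ 2 - ((1 - t 0) * B.A0 + t 0 * B.A1)| ≤ (B.ra : ℝ)
  s : |2 ^ 48 * sr q r - ((1 - t 1) * B.S0 + t 1 * B.S1)| ≤ (B.rs : ℝ)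
  w : |2 ^ 48 * (cW p q r x - WA p q r) - ((1 - t 2) * B.W0 + t 2 * B.W1)| ≤ ((0 : ℕ) : ℝ)

theorem bx_ok (hA : AOK D lf A) (hP : PT D t) (hq : ∀ j < 3, CD D j lf (qd j)) (hD : 3 ≤ D)
    {p q r : ℕ} (hp : 3 ≤ p) (hp15 : p ≤ 15) (hq3 : 3 ≤ q) {B : Bx} {x : ℝ}
    (h : Par p q r B x t) : BxT D lf t p q r x (bxM A qd p B) := by
  have ta : TOK D lf t ((Kp q ^ 2 : ℝ) : ℂ) (afM A (qd (nat_lit 0)) B.A0 B.A1 B.ra) :=
    TOK_af hA hP (hq 0 (by norm_num)) (by omega) h.a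
  have ts : TOK D lf t ((sr q r : ℝ) : ℂ) (afM A (qd (nat_lit 1)) B.S0 B.S1 B.rs) :=
    TOK_af hA hP (hq 1 (by norm_num)) (by omega) h.s
  have tw : TOK D lf t ((cW p q r x - WA p q r : ℝ) : ℂ)
      (afM A (qd (nat_lit 2)) B.W0 B.W1 (nat_lit 0)) :=
    TOK_af hA hP (hq 2 (by norm_num)) (by omega) h.w
  have tf := (TOK_four hA hP).sub hA ta
  have tm := tf.mul hA hP ts
  have tal : TOK D lf t ((1 / (4 - Kp p ^ 2) : ℝ) : ℂ) (cst A (tA p) (nat_lit 150)) :=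
    TOK_rc hA hP (tA_ok hp hp15)
  obtain ⟨-, -, k4⟩ := Kp_b hq3
  obtain ⟨-, -, k4p⟩ := Kp_b hp
  have eb : Kp q ^ 2 + (4 - Kp q ^ 2) * sr q r = Kp r ^ 2 := by
    unfold sr
    rw [mul_div_cancel₀ _ k4.ne']
    ring
  have ebc : ((Kp q ^ 2 : ℝ) : ℂ) + (4 - ((Kp q ^ 2 : ℝ) : ℂ)) * ((sr q r : ℝ) : ℂ) =
      ((Kp r ^ 2 : ℝ) : ℂ) := by
    rw [← eb]
    push_cast
    ring
  refine ⟨TOK_rc hA hP (tK_ok hp hp15), TOK_rc hA hP (tI_ok hp hp15),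
    TOK_rc hA hP (tC_ok hp hp15), TOK_rc hA hP (tS_ok hp hp15), TOK_rc hA hP (tH_ok hp hp15),
    ?_, ta, tc (ta.add hA tm) ebc, ?_⟩
  · refine TOK_cstC hA hP ?_
    have c1 := tC_ok hp hp15
    have s1 := tS_ok hp hp15
    have e1 : (UU : ℂ) * ep (phi p) - cz ⟨Z.p (tC p), Z.p (tS p)⟩ =
        ((2 ^ 48 * Real.cos (Real.pi / p) - tC p : ℝ) : ℂ) +
        ((2 ^ 48 * Real.sin (Real.pi / p) - tS p : ℝ) : ℂ) * Complex.I := by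
      rw [cz_pp, ← UU_eq]
      exact cpx_sub UU (Real.cos (Real.pi / p)) (Real.sin (Real.pi / p)) _ _
    rw [e1]
    refine (norm_add_le _ _).trans ?_
    rw [norm_mul, Complex.norm_I, mul_one, Complex.norm_real, Complex.norm_real,
      Real.norm_eq_abs, Real.norm_eq_abs]
    have := add_le_add c1 s1
    refine this.trans ?_
    norm_num
  · refine tc (((ta.add hA (tal.mul hA hP (tf.add hA tm))).add hA tw)) ?_
    have e2 : WA p q r = Kp q ^ 2 + 1 / (4 - Kp p ^ 2) *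
        ((4 - Kp q ^ 2) + (4 - Kp q ^ 2) * sr q r) := by
      unfold WA
      have : (4 - Kp q ^ 2) * sr q r = Kp r ^ 2 - Kp q ^ 2 := by linarith
      rw [this]
      field_simp
      ring
    rw [e2]
    push_cast
    ring

/-! ### the parameters -/

/-- `2 ^ 48 κ` is between `a` and `b` up to `r` -/
def Rg (κ : ℝ) (a b r : ℕ) : Prop := ∃ m : ℝ, (a : ℝ) ≤ m ∧ m ≤ b ∧ |2 ^ 48 * κ - m| ≤ (r : ℝ)

theorem Rg.of_mem {κ : ℝ} {a b r : ℕ} (h1 : (a : ℝ) ≤ 2 ^ 48 * κ) (h2 : 2 ^ 48 * κ ≤ b) :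
    Rg κ a b r := ⟨_, h1, h2, by rw [sub_self, abs_zero]; exact Nat.cast_nonneg _⟩

theorem Rg.of_abs {κ : ℝ} {n r : ℕ} (h : |2 ^ 48 * κ - n| ≤ (r : ℝ)) : Rg κ n n r := ⟨n, le_rfl, le_rfl, h⟩

theorem Rg.par {κ : ℝ} {a b r : ℕ} (h : Rg κ a b r) :
    ∃ s : ℝ, 0 ≤ s ∧ s ≤ 1 ∧ |2 ^ 48 * κ - ((1 - s) * a + s * b)| ≤ (r : ℝ) := by
  obtain ⟨m, h1, h2, h3⟩ := h
  rcases (h1.trans h2).eq_or_lt with h | h
  · refine ⟨0, le_rfl, zero_le_one, ?_⟩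
    have e : (1 - (0 : ℝ)) * a + 0 * b = m := by linarith
    rw [e]
    exact h3
  · have hba : (0 : ℝ) < (b : ℝ) - a := by linarith
    refine ⟨(m - a) / (b - a), div_nonneg (by linarith) hba.le,
      (div_le_one hba).2 (by linarith), ?_⟩
    have e : (1 - (m - a) / ((b : ℝ) - a)) * a + (m - a) / (b - a) * b = m := by
      field_simp
      ring
    rw [e]
    exact h3

/-- EXISTENCE OF THE PARAMETERS; the fourth one is free -/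
theorem par_ex {p q r : ℕ} {B : Bx} {x : ℝ} (hD4 : D ≤ 4) (ha : Rg (Kp q ^ 2) B.A0 B.A1 B.ra)
    (hs : Rg (sr q r) B.S0 B.S1 B.rs) (hw : Rg (cW p q r x - WA p q r) B.W0 B.W1 0) {u : ℝ}
    (h0 : 0 ≤ u) (h1 : u ≤ 1) : ∃ t : ℕ → ℝ, PT D t ∧ Par p q r B x t ∧ t 3 = u := by
  obtain ⟨s0, a0, a1, a2⟩ := ha.par
  obtain ⟨s1, b0, b1, b2⟩ := hs.par
  obtain ⟨s2, c0, c1, c2⟩ := hw.par
  refine ⟨fun j => if j = 0 then s0 else if j = 1 then s1 else if j = 2 then s2 else u,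
    ⟨fun j _ => ?_, fun j _ => ?_, hD4⟩, ⟨a2, b2, by simpa using c2⟩, rfl⟩
  · show 0 ≤ (if j = 0 then s0 else if j = 1 then s1 else if j = 2 then s2 else u)
    split_ifs <;> assumption
  · show (if j = 0 then s0 else if j = 1 then s1 else if j = 2 then s2 else u) ≤ 1
    split_ifs <;> assumption

/-- the point `x` of the excess `w` -/
def xw (p q r : ℕ) (w : ℝ) : ℝ := xA p q r + w / gw p q r

theorem xw_zero (p q r : ℕ) : xw p q r 0 = xA p q r := by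
  unfold xw
  rw [zero_div, add_zero]

theorem xw_mono {p q r : ℕ} (hp : 3 ≤ p) (hq : 3 ≤ q) (hr : 3 ≤ r) {w w' : ℝ} (h : w ≤ w') :
    xw p q r w ≤ xw p q r w' := by
  unfold xw
  have := div_le_div_of_nonneg_right h (gw_pos hp hq hr).le
  linarith

/-- THE RANGE OF `W` -/
theorem Rg_W {p q r : ℕ} (hp : 3 ≤ p) (hq : 3 ≤ q) (hr : 3 ≤ r) {x : ℝ} (h1 : -2 ≤ x)
    (h2 : x ≤ 2) {w0 w1 : ℕ} (g0 : xw p q r (w0 / 2 ^ 48) ≤ x) (g1 : x ≤ xw p q r (w1 / 2 ^ 48)) :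
    Rg (cW p q r x - WA p q r) w0 w1 0 := by
  have hg := gw_pos hp hq hr
  have e : cW p q r x - WA p q r = (x - xA p q r) * gw p q r := by
    rw [cW_eq hp hq hr h1 h2]
    ring
  rw [e]
  unfold xw at g0 g1
  have k0 : (w0 : ℝ) / 2 ^ 48 ≤ (x - xA p q r) * gw p q r := by
    rw [← div_le_iff₀ hg]
    linarith
  have k1 : (x - xA p q r) * gw p q r ≤ (w1 : ℝ) / 2 ^ 48 := by
    rw [← le_div_iff₀ hg]
    linarith
  rw [div_le_iff₀ (by positivity)] at k0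
  rw [le_div_iff₀ (by positivity)] at k1
  exact Rg.of_mem (by linarith) (by linarith)

/-- **A POINT OF THE BOX** -/
theorem box_pt {p q r : ℕ} (hp : 3 ≤ p) (hp15 : p ≤ 15) (hq : 3 ≤ q) (hr : 3 ≤ r) {B : Bx}
    (ha : Rg (Kp q ^ 2) B.A0 B.A1 B.ra) (hs : Rg (sr q r) B.S0 B.S1 B.rs) {x : ℝ} (h1 : -2 ≤ x)
    (h2 : x ≤ 2) (g0 : xw p q r (B.W0 / 2 ^ 48) ≤ x) (g1 : x ≤ xw p q r (B.W1 / 2 ^ 48))
    (hD : 3 ≤ D) (hD4 : D ≤ 4) (hA : AOK D lf A) (hqd : ∀ j < 3, CD D j lf (qd j)) {u : ℝ}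
    (h0 : 0 ≤ u) (h1' : u ≤ 1) : ∃ t : ℕ → ℝ, PT D t ∧ t 3 = u ∧ Par p q r B x t ∧
      BxT D lf t p q r x (bxM A qd p B) := by
  obtain ⟨t, ht, hpar, h3⟩ := par_ex hD4 ha hs (Rg_W hp hq hr h1 h2 g0 g1) h0 h1'
  exact ⟨t, ht, h3, hpar, bx_ok hA ht hqd hD hp hp15 hq hpar⟩

end Pool.Agent.Helper91.BX
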