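import Pool.Agent.Helper91.BX.R

/-!
Row M5 (MP_c75db0, star frame), part 4: ranges of `κ_q²` and of the ratio, the last piece reaches
the line, chain of the pieces.
-/

set_option autoImplicit false
set_option exponentiation.threshold 4000
noncomputable section
namespace Pool.Agent.Helper91.BX

open Pool.Agent.Helper6.MONO (Kp xA xA_eq xA_gt xA_le2 kap_mono kap_le2 kap_enc kb kap15_of kap15_lo Kp_double)
open Pool.Agent.Helper6.MONO.W2 (Win NC nc_same zx)

/-! ### the squares -/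

/-- `2 ^ 48 Kp q ^ 2`, rounded, `q = 3, ..., 16` -/
def tQ : ℕ → ℕ
  | 3 => 281474976710656
  | 4 => 562949953421312
  | 5 => 736911056011082
  | 6 => 844424930131968
  | 7 => 913943508336349
  | 8 => 961015682954173
  | 9 => 994194636993796
  | 10 => 1018386032721738
  | 11 => 1036533590544140
  | 12 => 1050478914143435
  | 13 => 1061417381819407
  | 14 => 1070150335641031
  | 15 => 1077230326249465
  | 16 => 1083047893215444
  | _ => 0

/-- `2 ^ 48 Kp q`, rounded, `q = 3, ..., 16` -/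
def tK' : ℕ → ℕ
  | 16 => 552133027919307
  | n => tK n

theorem kap_16 : |Kp 16 - 552133027919307 / 2 ^ 48| ≤ 1 / 2 ^ 48 := by
  have h := Kp_double 8 (by norm_num)
  have e : (2 * 8 : ℕ) = 16 := rfl
  rw [e] at h
  have h8 := kap_enc 8 (by norm_num) (by norm_num)
  rw [abs_le] at h8
  simp only [kb] at h8
  push_cast at h8
  refine kap15_of (fun x => x ^ 2 - 2) (fun x y hx hxy => by nlinarith) _ _
    (kap15_lo (by norm_num)) (by norm_num) ?_ ?_
  · show _ ≤ Kp 16 ^ 2 - 2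
    rw [h]
    norm_num at h8 ⊢
    linarith [h8.1]
  · show Kp 16 ^ 2 - 2 ≤ _
    rw [h]
    norm_num at h8 ⊢
    linarith [h8.2]

theorem tK'_enc {q : ℕ} (h3 : 3 ≤ q) (h16 : q ≤ 16) :
    ((tK' q : ℝ) - 1) / 2 ^ 48 ≤ Kp q ∧ Kp q ≤ ((tK' q : ℝ) + 1) / 2 ^ 48 := by
  rcases Nat.lt_or_ge q 16 with h | h
  · have e : tK' q = tK q := by
      interval_cases q <;> rfl
    rw [e]
    exact tK_enc h3 (by omega)
  · have e0 : q = 16 := by omega
    subst e0
    have e : ((tK' 16 : ℕ) : ℝ) = 552133027919307 := by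
      simp only [tK']
      norm_num
    rw [e]
    have h := kap_16
    rw [abs_le] at h
    have e1 : ((552133027919307 : ℝ) - 1) / 2 ^ 48 = 552133027919307 / 2 ^ 48 - 1 / 2 ^ 48 := by
      ring
    have e2 : ((552133027919307 : ℝ) + 1) / 2 ^ 48 = 552133027919307 / 2 ^ 48 + 1 / 2 ^ 48 := by
      ring
    constructor
    · linarith [h.1]
    · linarith [h.2]

/-- THE SQUARES -/
theorem tQ_ok {q : ℕ} (h3 : 3 ≤ q) (h16 : q ≤ 16) : |2 ^ 48 * Kp q ^ 2 - tQ q| ≤ ((6 : ℕ) : ℝ) := by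
  obtain ⟨h1, h2⟩ := tK'_enc h3 h16
  have h0 : (0 : ℝ) ≤ ((tK' q : ℝ) - 1) / 2 ^ 48 := by
    interval_cases q <;> simp only [tK', tK] <;> norm_num
  have e1 : (((tK' q : ℝ) - 1) / 2 ^ 48) ^ 2 ≤ Kp q ^ 2 := by gcongr
  have e2 : Kp q ^ 2 ≤ (((tK' q : ℝ) + 1) / 2 ^ 48) ^ 2 := by
    have := h0.trans h1
    gcongr
  have g : ((tQ q : ℝ) - (6 : ℕ)) / 2 ^ 48 ≤ (((tK' q : ℝ) - 1) / 2 ^ 48) ^ 2 ∧
      (((tK' q : ℝ) + 1) / 2 ^ 48) ^ 2 ≤ ((tQ q : ℝ) + (6 : ℕ)) / 2 ^ 48 := by
    interval_cases q <;> simp only [tK', tK, tQ] <;> norm_num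
  exact abs_enc (g.1.trans e1) (e2.trans g.2)

/-- EXACT `q` -/
theorem Rg_ex {q : ℕ} (h3 : 3 ≤ q) (h16 : q ≤ 16) : Rg (Kp q ^ 2) (tQ q) (tQ q) 6 :=
  Rg.of_abs (tQ_ok h3 h16)

/-- TAILS -/
theorem tQ_tail {N q : ℕ} (h3 : 3 ≤ N) (h16 : N ≤ 16) (h : N ≤ q) :
    ((tQ N : ℝ) - 6) ≤ 2 ^ 48 * Kp q ^ 2 ∧ 2 ^ 48 * Kp q ^ 2 < 2 ^ 50 := by
  have h1 := tQ_ok h3 h16
  have h2 := kap_mono (M := N) (N := q) (by omega) h
  have h0 := (Kp_b h3).1
  obtain ⟨c0, c2, -⟩ := Kp_b (h3.trans h)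
  have h4 : Kp N ^ 2 ≤ Kp q ^ 2 := by gcongr
  rw [abs_le] at h1
  push_cast at h1
  constructor
  · linarith [h1.1]
  · nlinarith

/-- a lower and an upper bound in units -/
def Bd (κ : ℝ) (l u : ℕ) : Prop := (l : ℝ) ≤ 2 ^ 48 * κ ∧ 2 ^ 48 * κ ≤ u

theorem Bd.rg {κ : ℝ} {l u r : ℕ} (h : Bd κ l u) : Rg κ l u r := Rg.of_mem h.1 h.2

theorem Bd_ex {q : ℕ} (h3 : 3 ≤ q) (h16 : q ≤ 16) : Bd (Kp q ^ 2) (tQ q - 6) (tQ q + 6) := by
  have h := tQ_ok h3 h16
  rw [abs_le] at h
  have h5 : 6 ≤ tQ q := by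
    interval_cases q <;> simp only [tQ] <;> norm_num
  refine ⟨?_, ?_⟩
  · rw [Nat.cast_sub h5]
    push_cast
    push_cast at h
    linarith [h.1]
  · push_cast
    push_cast at h
    linarith [h.2]

theorem Bd_tail {N q : ℕ} (h3 : 3 ≤ N) (h16 : N ≤ 16) (h : N ≤ q) :
    Bd (Kp q ^ 2) (tQ N - 6) (1125899906842624) := by
  obtain ⟨h1, h2⟩ := tQ_tail h3 h16 h
  have h5 : 6 ≤ tQ N := by
    interval_cases N <;> simp only [tQ] <;> norm_num
  refine ⟨?_, ?_⟩
  · rw [Nat.cast_sub h5]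
    push_cast
    exact h1
  · push_cast
    linarith

/-! ### the ratio -/

theorem sr_01 {q r : ℕ} (hq : 3 ≤ q) (hqr : q ≤ r) : 0 ≤ sr q r ∧ sr q r < 1 := by
  obtain ⟨q0, q2, q4⟩ := Kp_b hq
  obtain ⟨r0, r2, r4⟩ := Kp_b (hq.trans hqr)
  have h := kap_mono (M := q) (N := r) (by omega) hqr
  have h' : Kp q ^ 2 ≤ Kp r ^ 2 := by gcongr
  unfold sr
  refine ⟨div_nonneg (by linarith) q4.le, ?_⟩
  rw [div_lt_one q4]
  linarith

/-- kernel test of a lower bound -/
def sLo (ah bl S : Nat) : Bool := Nat.ble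
  (Nat.add (Nat.mul S (Nat.sub (nat_lit 1125899906842624) ah)) (Nat.mul ah (nat_lit 281474976710656)))
  (Nat.mul bl (nat_lit 281474976710656))
/-- kernel test of an upper bound -/
def sHi (al bh S : Nat) : Bool := Nat.ble
  (Nat.mul bh (nat_lit 281474976710656))
  (Nat.add (Nat.mul S (Nat.sub (nat_lit 1125899906842624) al)) (Nat.mul al (nat_lit 281474976710656)))

theorem sr_lo {q r : ℕ} (hq : 3 ≤ q) {ah bl S : ℕ} (ha : 2 ^ 48 * Kp q ^ 2 ≤ ah)
    (hb : (bl : ℝ) ≤ 2 ^ 48 * Kp r ^ 2) (hah : ah < 1125899906842624) (hbl : bl ≤ 1125899906842624)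
    (h : sLo ah bl S = true) : (S : ℝ) ≤ 2 ^ 48 * sr q r := by
  have h' : S * (1125899906842624 - ah) + ah * 281474976710656 ≤ bl * 281474976710656 :=
    Nat.le_of_ble_eq_true h
  have h2 : (S : ℝ) * (1125899906842624 - ah) + ah * 281474976710656 ≤ bl * 281474976710656 := by
    have := (Nat.cast_le (α := ℝ)).2 h'
    push_cast [Nat.cast_sub hah.le] at this
    exact this
  have hah' : (ah : ℝ) < 1125899906842624 := by exact_mod_cast hah
  have hbl' : (bl : ℝ) ≤ 1125899906842624 := by exact_mod_cast hbl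
  have hS : (S : ℝ) ≤ 281474976710656 := by
    have : (S : ℝ) * (1125899906842624 - ah) ≤ 281474976710656 * (1125899906842624 - ah) := by
      nlinarith
    exact le_of_mul_le_mul_right this (by linarith)
  obtain ⟨q0, q2, q4⟩ := Kp_b hq
  unfold sr
  rw [mul_div_assoc', le_div_iff₀ q4]
  generalize Kp q ^ 2 = a at *
  generalize Kp r ^ 2 = b at *
  have k1 := mul_nonneg (sub_nonneg.2 ha) (sub_nonneg.2 hS)
  nlinarith

theorem sr_hi {q r : ℕ} (hq : 3 ≤ q) {al bh S : ℕ} (ha : (al : ℝ) ≤ 2 ^ 48 * Kp q ^ 2)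
    (hb : 2 ^ 48 * Kp r ^ 2 ≤ bh) (hal : al ≤ 1125899906842624) (hS : S ≤ 281474976710656)
    (h : sHi al bh S = true) : 2 ^ 48 * sr q r ≤ S := by
  have h' : bh * 281474976710656 ≤ S * (1125899906842624 - al) + al * 281474976710656 :=
    Nat.le_of_ble_eq_true h
  have h2 : (bh : ℝ) * 281474976710656 ≤ S * (1125899906842624 - al) + al * 281474976710656 := by
    have := (Nat.cast_le (α := ℝ)).2 h'
    push_cast [Nat.cast_sub hal] at this
    exact this
  have hS' : (S : ℝ) ≤ 281474976710656 := by exact_mod_cast hS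
  obtain ⟨q0, q2, q4⟩ := Kp_b hq
  unfold sr
  rw [mul_div_assoc', div_le_iff₀ q4]
  generalize Kp q ^ 2 = a at *
  generalize Kp r ^ 2 = b at *
  have k1 := mul_nonneg (sub_nonneg.2 ha) (sub_nonneg.2 hS')
  nlinarith

/-- range of the ratio from ranges of the squares -/
theorem Bd_sr {q r : ℕ} (hq : 3 ≤ q) {al ah bl bh S0 S1 : ℕ} (ha : Bd (Kp q ^ 2) al ah)
    (hb : Bd (Kp r ^ 2) bl bh) (h1 : ah < 1125899906842624) (h2 : bl ≤ 1125899906842624)
    (h3 : al ≤ 1125899906842624) (h4 : S1 ≤ 281474976710656) (g1 : sLo ah bl S0 = true)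
    (g2 : sHi al bh S1 = true) : Bd (sr q r) S0 S1 :=
  ⟨sr_lo hq ha.2 hb.1 h1 h2 g1, sr_hi hq ha.1 hb.2 h3 h4 g2⟩

theorem Bd_sr01 {q r : ℕ} (hq : 3 ≤ q) (hqr : q ≤ r) : Bd (sr q r) 0 281474976710656 := by
  obtain ⟨h1, h2⟩ := sr_01 hq hqr
  constructor
  · push_cast
    positivity
  · push_cast
    linarith

/-! ### the end of the window -/

/-- kernel test: the piece which ends at `wl` reaches the line `m / 2 ^ 48`;
`a1`, `b1` upper bounds of the squares, `g` of the product `κ_q κ_r` -/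
def endT (p m a1 b1 g wl : Nat) : Bool :=
  Pool.Agent.Helper86.CX.andB (Nat.ble (Nat.mul a1 b1) (Nat.mul g g))
    (Nat.ble (Nat.add (Nat.add (Nat.mul (Nat.mul m (Nat.add (tK p) (nat_lit 1))) g)
      (Nat.mul b1 (nat_lit 79228162514264337593543950336)))
      (Nat.mul (Nat.mul (Nat.add (tK p) (nat_lit 1)) (Nat.add (tK p) (nat_lit 1))) a1))
      (Nat.add (Nat.mul wl (Nat.sub (nat_lit 316912650057057350374175801344)
        (Nat.mul (Nat.add (tK p) (nat_lit 1)) (Nat.add (tK p) (nat_lit 1)))))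
        (nat_lit 89202980794122492566142873090593446023921664)))

theorem end_ok {p q r : ℕ} (hp : 3 ≤ p) (hp15 : p ≤ 15) (hq : 3 ≤ q) (hr : 3 ≤ r)
    {m a1 b1 g wl : ℕ} (ha : 2 ^ 48 * Kp q ^ 2 ≤ a1) (hb : 2 ^ 48 * Kp r ^ 2 ≤ b1)
    (h : endT p m a1 b1 g wl = true) : (m : ℝ) / 2 ^ 48 ≤ xw p q r (wl / 2 ^ 48) := by
  obtain ⟨g1, g2⟩ := Pool.Agent.Helper90.KMO.andB_t h
  have k1 : a1 * b1 ≤ g * g := Nat.le_of_ble_eq_true g1
  have k2 : m * (tK p + 1) * g + b1 * 79228162514264337593543950336 +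
      (tK p + 1) * (tK p + 1) * a1 ≤ wl * (316912650057057350374175801344 -
      (tK p + 1) * (tK p + 1)) + 89202980794122492566142873090593446023921664 :=
    Nat.le_of_ble_eq_true g2
  have hK : (tK p + 1) * (tK p + 1) ≤ 316912650057057350374175801344 := by
    interval_cases p <;> simp only [tK] <;> norm_num
  have hKh := (tK_enc hp hp15).2
  have kr1 : (a1 : ℝ) * b1 ≤ g * g := by exact_mod_cast k1
  have kr2 : (m : ℝ) * (tK p + 1) * g + b1 * 79228162514264337593543950336 +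
      (tK p + 1) * (tK p + 1) * a1 ≤ wl * (316912650057057350374175801344 -
      (tK p + 1) * (tK p + 1)) + 89202980794122492566142873090593446023921664 := by
    have := (Nat.cast_le (α := ℝ)).2 k2
    push_cast [Nat.cast_sub hK] at this
    exact this
  set K : ℝ := (tK p : ℝ) + 1 with hKdef
  obtain ⟨p0, p2, p4⟩ := Kp_b hp
  have q0 := (Kp_b hq).1
  have r0 := (Kp_b hr).1
  have hK0 : 0 ≤ K := by positivity
  have e48 : (2 : ℝ) ^ 48 = 281474976710656 := by norm_num
  rw [e48] at ha hb hKh ⊢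
  rw [le_div_iff₀ (by norm_num)] at hKh
  -- the product
  have hg : Kp q * Kp r * 281474976710656 ≤ g := by
    apply le_sq _ (Nat.cast_nonneg _)
    have h1 : (281474976710656 * Kp q ^ 2) * (281474976710656 * Kp r ^ 2) ≤ a1 * b1 :=
      mul_le_mul ha hb (by positivity) (Nat.cast_nonneg _)
    nlinarith
  unfold xw
  have hgw := gw_pos hp hq hr
  rw [← sub_le_iff_le_add', le_div_iff₀ hgw]
  have e : ((m : ℝ) / 281474976710656 - xA p q r) * gw p q r =
      ((m : ℝ) / 281474976710656 * (Kp p * Kp q * Kp r) - (4 - Kp r ^ 2 - Kp p ^ 2 * Kp q ^ 2)) /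
        (4 - Kp p ^ 2) := by
    unfold gw
    rw [xA_eq]
    have := p4.ne'
    have := p0.ne'
    have := q0.ne'
    have := r0.ne'
    field_simp
  rw [e, div_le_iff₀ p4]
  have m1 : (m : ℝ) * (Kp p * 281474976710656) * (Kp q * Kp r * 281474976710656) ≤ m * K * g :=
    mul_le_mul (mul_le_mul_of_nonneg_left hKh (Nat.cast_nonneg _)) hg (by positivity)
      (by positivity)
  have m2 : (Kp p * 281474976710656) ^ 2 ≤ K * K := by
    have := mul_le_mul hKh hKh (by positivity) hK0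
    linarith [sq (Kp p * 281474976710656)]
  have m3 : (Kp p * 281474976710656) ^ 2 * (281474976710656 * Kp q ^ 2) ≤ K * K * a1 :=
    mul_le_mul m2 ha (by positivity) (by positivity)
  have m4 : (wl : ℝ) * (316912650057057350374175801344 - K * K) ≤
      wl * (316912650057057350374175801344 - (Kp p * 281474976710656) ^ 2) :=
    mul_le_mul_of_nonneg_left (by linarith) (Nat.cast_nonneg _)
  have m5 : 281474976710656 * Kp r ^ 2 * 79228162514264337593543950336 ≤
      b1 * 79228162514264337593543950336 := mul_le_mul_of_nonneg_right hb (by norm_num)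
  have fin : (m : ℝ) * (Kp p * 281474976710656) * (Kp q * Kp r * 281474976710656) +
      281474976710656 * Kp r ^ 2 * 79228162514264337593543950336 +
      (Kp p * 281474976710656) ^ 2 * (281474976710656 * Kp q ^ 2) ≤
      wl * (316912650057057350374175801344 - (Kp p * 281474976710656) ^ 2) +
      89202980794122492566142873090593446023921664 := by linarith
  generalize Kp p = P at *
  generalize Kp q = Q at *
  generalize Kp r = R at *
  have c1 : (m : ℝ) / 281474976710656 * (P * Q * R) - (4 - R ^ 2 - P ^ 2 * Q ^ 2) =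
      ((m : ℝ) * (P * 281474976710656) * (Q * R * 281474976710656) +
      281474976710656 * R ^ 2 * 79228162514264337593543950336 +
      (P * 281474976710656) ^ 2 * (281474976710656 * Q ^ 2) -
      89202980794122492566142873090593446023921664) /
      22300745198530623141535718272648361505980416 := by
    ring
  have c2 : (wl : ℝ) / 281474976710656 * (4 - P ^ 2) =
      (wl * (316912650057057350374175801344 - (P * 281474976710656) ^ 2)) /
      22300745198530623141535718272648361505980416 := by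
    ring
  rw [c1, c2]
  exact div_le_div_of_nonneg_right (by linarith) (by norm_num)

/-! ### the chain of the pieces -/

theorem Win.self {p q r : ℕ} (a : ℝ) (h1 : -2 ≤ a) (h2 : a ≤ 2) : Win p q r a a := by
  intro x y hx hxy hy
  have e : x = y := le_antisymm hxy (hy.trans hx)
  have e' : x = a := le_antisymm (e ▸ hy) hx
  subst e
  subst e'
  exact nc_same (Pool.Agent.Helper6.MONO.W2.zx_norm h1 h2) (Pool.Agent.Helper6.MONO.W2.zx_norm h1 h2) rfl

/-- the statement of a piece: `W - W_A` from `w` to `w'`, `x < m` -/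
def Pc (p q r : ℕ) (m : ℝ) (w w' : ℕ) : Prop := ∀ a b : ℝ, -2 < a → a < b → b < 2 → b ≤ m →
  xA p q r ≤ a → xw p q r (w / 2 ^ 48) ≤ a → b ≤ xw p q r (w' / 2 ^ 48) → Win p q r a b

/-- consecutive pieces -/
def Chn (P : ℕ → ℕ → Prop) : ℕ → List ℕ → Prop
  | _, [] => True
  | w, w' :: l => P w w' ∧ Chn P w' l

theorem win_chn {p q r : ℕ} (hp : 3 ≤ p) (hq : 3 ≤ q) (hqr : q ≤ r) {m : ℝ} (hm : m < 2)
    (hA : xA p q r ≤ m) : ∀ (l : List ℕ) (w : ℕ), Chn (Pc p q r m) w l →
    Win p q r (min (xw p q r (w / 2 ^ 48)) m)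
      (min (xw p q r ((l.getLastD w : ℕ) / 2 ^ 48)) m) := by
  have hr := hq.trans hqr
  have hgt := xA_gt (p := p) hp hq hqr
  have hx0 : ∀ w : ℕ, xA p q r ≤ xw p q r (w / 2 ^ 48) := fun w => by
    have := xw_mono hp hq hr (w := 0) (w' := (w : ℝ) / 2 ^ 48) (by positivity)
    rwa [xw_zero] at this
  intro l
  induction l with
  | nil =>
    intro w _
    exact Win.self _ (by
      have := le_min (hx0 w) hA
      linarith) ((min_le_right _ _).trans hm.le)
  | cons w' l ih =>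
    intro w h
    rw [List.getLastD_cons]
    refine Pool.Agent.Helper6.MONO.W2.Win.join ?_ (ih w' h.2)
    rcases lt_trichotomy (min (xw p q r (w / 2 ^ 48)) m) (min (xw p q r (w' / 2 ^ 48)) m)
      with h1 | h1 | h1
    · have hlt : min (xw p q r (w / 2 ^ 48)) m < m := h1.trans_le (min_le_right _ _)
      have e : min (xw p q r (w / 2 ^ 48)) m = xw p q r (w / 2 ^ 48) := by
        rcases min_choice (xw p q r (w / 2 ^ 48)) m with h2 | h2
        · exact h2
        · rw [h2] at hlt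
          exact absurd hlt (lt_irrefl _)
      refine h.1 _ _ ?_ h1 ((min_le_right _ _).trans_lt hm) (min_le_right _ _) ?_ ?_
        (min_le_left _ _)
      · rw [e]
        linarith [hx0 w]
      · rw [e]
        exact hx0 w
      · rw [e]
    · rw [← h1]
      exact Win.self _ (by
        have := le_min (hx0 w) hA
        linarith) ((min_le_right _ _).trans hm.le)
    · intro x y hx hxy hy
      linarith

/-- **THE WINDOW FROM THE PIECES** -/
theorem win_all {p q r : ℕ} (hp : 3 ≤ p) (hq : 3 ≤ q) (hqr : q ≤ r) {m : ℝ} (hm : m < 2)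
    (hA : xA p q r ≤ m) {l : List ℕ} (h : Chn (Pc p q r m) 0 l)
    (hl : m ≤ xw p q r ((l.getLastD 0 : ℕ) / 2 ^ 48)) : Win p q r (xA p q r) m := by
  have h1 := win_chn hp hq hqr hm hA l 0 h
  have e0 : xw p q r (((0 : ℕ) : ℝ) / 2 ^ 48) = xA p q r := by
    rw [Nat.cast_zero, zero_div, xw_zero]
  rw [e0, min_eq_left hA, min_eq_right hl] at h1
  exact h1

/-! ### windows which start at a threshold -/

/-- the statement of a piece, with a property `Q` of the points -/
def PcQ (Q : ℝ → Prop) (p q r : ℕ) (m : ℝ) (w w' : ℕ) : Prop := ∀ a b : ℝ, -2 < a → a < b →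
  b < 2 → b ≤ m → xA p q r ≤ a → xw p q r (w / 2 ^ 48) ≤ a → b ≤ xw p q r (w' / 2 ^ 48) →
  (∀ x, a < x → x < b → Q x) → Win p q r a b

theorem win_chnQ {Q : ℝ → Prop} {p q r : ℕ} (hp : 3 ≤ p) (hq : 3 ≤ q) (hqr : q ≤ r) {x0 m : ℝ}
    (hm : m < 2) (hA : xA p q r ≤ x0) (h0m : x0 ≤ m) (hQ : ∀ x, x0 < x → x < m → Q x) :
    ∀ (l : List ℕ) (w : ℕ), Chn (PcQ Q p q r m) w l →
    Win p q r (min (max (xw p q r (w / 2 ^ 48)) x0) m)
      (min (max (xw p q r ((l.getLastD w : ℕ) / 2 ^ 48)) x0) m) := by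
  have hgt := xA_gt (p := p) hp hq hqr
  have hlo : ∀ w : ℕ, x0 ≤ min (max (xw p q r (w / 2 ^ 48)) x0) m := fun w =>
    le_min (le_max_right _ _) h0m
  have hself : ∀ w : ℕ, Win p q r (min (max (xw p q r (w / 2 ^ 48)) x0) m)
      (min (max (xw p q r (w / 2 ^ 48)) x0) m) := fun w =>
    Win.self _ (by linarith [hlo w]) ((min_le_right _ _).trans hm.le)
  intro l
  induction l with
  | nil =>
    intro w _
    exact hself w
  | cons w' l ih =>
    intro w h
    rw [List.getLastD_cons]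
    refine Pool.Agent.Helper6.MONO.W2.Win.join ?_ (ih w' h.2)
    rcases lt_trichotomy (min (max (xw p q r (w / 2 ^ 48)) x0) m)
      (min (max (xw p q r (w' / 2 ^ 48)) x0) m) with h1 | h1 | h1
    · have hlt : min (max (xw p q r (w / 2 ^ 48)) x0) m < m := h1.trans_le (min_le_right _ _)
      have e : min (max (xw p q r (w / 2 ^ 48)) x0) m = max (xw p q r (w / 2 ^ 48)) x0 := by
        rcases min_choice (max (xw p q r (w / 2 ^ 48)) x0) m with h2 | h2
        · exact h2
        · rw [h2] at hlt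
          exact absurd hlt (lt_irrefl _)
      have hb : min (max (xw p q r (w' / 2 ^ 48)) x0) m ≤ xw p q r (w' / 2 ^ 48) := by
        refine (min_le_left _ _).trans ?_
        rcases max_choice (xw p q r (w' / 2 ^ 48)) x0 with h2 | h2
        · rw [h2]
        · exfalso
          rw [h2] at h1
          exact absurd (h1.trans_le (min_le_left _ _)) (not_lt.2 (hlo w))
      refine h.1 _ _ ?_ h1 ((min_le_right _ _).trans_lt hm) (min_le_right _ _) ?_ ?_ hb ?_
      · linarith [hlo w]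
      · exact hA.trans (hlo w)
      · rw [e]
        exact le_max_left _ _
      · intro x hx hx'
        exact hQ x ((hlo w).trans_lt hx) (hx'.trans_le (min_le_right _ _))
    · rw [← h1]
      exact hself w
    · intro x y hx hxy hy
      linarith

/-- **THE WINDOW FROM A THRESHOLD `x0`** -/
theorem win_allQ {Q : ℝ → Prop} {p q r : ℕ} (hp : 3 ≤ p) (hq : 3 ≤ q) (hqr : q ≤ r) {x0 m : ℝ}
    (hm : m < 2) (hA : xA p q r ≤ x0) (h0m : x0 ≤ m) (hQ : ∀ x, x0 < x → x < m → Q x) {w0 : ℕ}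
    (hw0 : xw p q r (w0 / 2 ^ 48) ≤ x0) {l : List ℕ} (h : Chn (PcQ Q p q r m) w0 l)
    (hl : m ≤ xw p q r ((l.getLastD w0 : ℕ) / 2 ^ 48)) : Win p q r x0 m := by
  have h1 := win_chnQ hp hq hqr hm hA h0m hQ l w0 h
  rw [max_eq_right hw0, min_eq_left h0m, min_eq_right (hl.trans (le_max_left _ _))] at h1
  exact h1

end Pool.Agent.Helper91.BX
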